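import Pool.Agent.MP_f0649b_al.Basic1

/-! Elementary facts on irreducible representations. -/

open Module

namespace Pool.Agent.MP_f0649b_al

variable {G : Type} [Group G] {V W : Type} [AddCommGroup V] [Module ℂ V] [AddCommGroup W]
  [Module ℂ W]

theorem Dg.mem_cd {K : Subgroup G} {d : ℕ} (h : Dg K d) : d ∈ cd G := by
  obtain ⟨V, i1, i2, i3, ρ, h1, h2, -⟩ := h
  exact ⟨V, i1, i2, i3, ρ, h1, h2⟩

theorem Dg.mono {K L : Subgroup G} (hKL : K ≤ L) {d : ℕ} (h : Dg K d) : Dg L d := by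
  obtain ⟨V, i1, i2, i3, ρ, h1, h2, x, hx, h3⟩ := h
  exact ⟨V, i1, i2, i3, ρ, h1, h2, x, hKL hx, h3⟩

theorem Dg.two_le {d : ℕ} (h : Dg (commutator G) d) : 2 ≤ d := by
  obtain ⟨V, i1, i2, i3, ρ, h1, h2, x, hx, h3⟩ := h
  have h4 := dim_pos h1
  have h5 : finrank ℂ V ≠ 1 := fun e => h3 (triv_of_dim_one ρ e x hx)
  omega

theorem dg_of_cd {d : ℕ} (h : d ∈ cd G) (h1 : d ≠ 1) : Dg (commutator G) d := by
  obtain ⟨V, i1, i2, i3, ρ, h2, h3⟩ := h
  refine ⟨V, i1, i2, i3, ρ, h2, h3, ?_⟩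
  by_contra h4
  push Not at h4
  exact h1 (h3 ▸ dim_one_of_commutator h2 h4)

theorem one_mem_cd (G : Type) [Group G] : 1 ∈ cd G := by
  refine ⟨ℂ, inferInstance, inferInstance, inferInstance, Representation.trivial ℂ G ℂ,
    ⟨inferInstance, fun U _ => eq_bot_or_eq_top U⟩, finrank_self ℂ⟩

theorem irr_comp {k Q U : Type} [Field k] [Group Q] [AddCommGroup U] [Module k U] (π : G →* Q)
    (hπ : Function.Surjective π) (ρ : Representation k Q U) : Irr (ρ.comp π) ↔ Irr ρ := by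
  refine and_congr_right fun _ => forall_congr' fun U => imp_congr_left ⟨fun h g => ?_,
    fun h g => h (π g)⟩
  obtain ⟨x, rfl⟩ := hπ g
  exact h x

theorem cd_of_surj {Q : Type} [Group Q] (π : G →* Q) (hπ : Function.Surjective π) :
    cd Q ⊆ cd G := by
  rintro d ⟨V, i1, i2, i3, ρ, h1, h2⟩
  exact ⟨V, i1, i2, i3, ρ.comp π, (irr_comp π hπ ρ).2 h1, h2⟩

theorem MinDeg.of_surj {Q : Type} [Group Q] (π : G →* Q) (hπ : Function.Surjective π) {f : ℕ}
    (h : MinDeg G f) : MinDeg Q f := by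
  intro d hd
  have h2 := hd.two_le
  exact h d (dg_of_cd (cd_of_surj π hπ hd.mem_cd) (by omega))

/-- an element outside the commutator subgroup is seen by a linear character -/
theorem exists_lin [Finite G] {x : G} (hx : x ∉ commutator G) : ∃ l : G →* ℂˣ, l x ≠ 1 := by
  have h1 : Abelianization.of x ≠ 1 := fun e => hx (by
    rwa [← MonoidHom.mem_ker, Abelianization.ker_of] at e)
  have : Finite (Abelianization G) := Quotient.finite _
  have : NeZero (Monoid.exponent (Abelianization G)) := ⟨Monoid.exponent_ne_zero_of_finite⟩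
  obtain ⟨φ, hφ⟩ := CommGroup.exists_apply_ne_one_of_hasEnoughRootsOfUnity (Abelianization G) ℂ h1
  exact ⟨φ.comp Abelianization.of, hφ⟩

end Pool.Agent.MP_f0649b_al
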