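import Pool.Agent.MP_f0649b_al.Defs

/-! Schur lemma and its consequences. -/

open Module

namespace Pool.Agent.MP_f0649b_al

variable {G : Type} [Group G] {V W : Type} [AddCommGroup V] [Module ℂ V] [AddCommGroup W]
  [Module ℂ W]

theorem schur [FiniteDimensional ℂ V] {ρ : Representation ℂ G V} (hρ : Irr ρ)
    (T : Module.End ℂ V) (hT : ∀ g, T * ρ g = ρ g * T) : ∃ c : ℂ, T = c • (1 : Module.End ℂ V) := by
  have := hρ.1
  obtain ⟨c, hc⟩ := Module.End.exists_eigenvalue T
  refine ⟨c, ?_⟩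
  have hinv : ∀ g, ∀ v ∈ T.eigenspace c, ρ g v ∈ T.eigenspace c := by
    intro g v hv
    rw [Module.End.mem_eigenspace_iff] at hv ⊢
    rw [← Module.End.mul_apply, hT, Module.End.mul_apply, hv, map_smul]
  rcases hρ.2 _ hinv with h | h
  · exact absurd h hc
  · ext v
    have hv : v ∈ T.eigenspace c := h ▸ Submodule.mem_top
    rw [Module.End.mem_eigenspace_iff] at hv
    simpa using hv

theorem dim_pos [FiniteDimensional ℂ V] {ρ : Representation ℂ G V} (hρ : Irr ρ) :
    0 < finrank ℂ V := by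
  have := hρ.1
  exact Module.finrank_pos

theorem dim_one_of_comm [FiniteDimensional ℂ V] {ρ : Representation ℂ G V} (hρ : Irr ρ)
    (h : ∀ x y, Commute (ρ x) (ρ y)) : finrank ℂ V = 1 := by
  have := hρ.1
  obtain ⟨v, hv⟩ := exists_ne (0 : V)
  have hinv : ∀ g, ∀ w ∈ Submodule.span ℂ {v}, ρ g w ∈ Submodule.span ℂ {v} := by
    intro g w hw
    obtain ⟨c, hc⟩ := schur hρ (ρ g) (fun y => h g y)
    rw [hc]
    simpa using Submodule.smul_mem _ c hw
  rcases hρ.2 _ hinv with h' | h'
  · exact absurd (Submodule.span_singleton_eq_bot.1 h') hv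
  · rw [← finrank_top, ← h', finrank_span_singleton hv]

theorem dim_one_of_commutator [FiniteDimensional ℂ V] {ρ : Representation ℂ G V} (hρ : Irr ρ)
    (h : ∀ x ∈ commutator G, ρ x = 1) : finrank ℂ V = 1 := by
  refine dim_one_of_comm hρ fun x y => ?_
  have h1 := h _ (Subgroup.commutator_mem_commutator (Subgroup.mem_top x) (Subgroup.mem_top y))
  rw [commutatorElement_def] at h1
  have h2 : x * y = x * y * x⁻¹ * y⁻¹ * (y * x) := by group
  change ρ x * ρ y = ρ y * ρ x
  rw [← map_mul, h2, map_mul, h1, one_mul, map_mul]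

theorem Basic1_comm {M : Type} [Monoid M] (f : G →* M) (hf : ∀ x y, f x * f y = f y * f x) :
    ∀ x ∈ commutator G, f x = 1 := by
  have : commutator G ≤ f.ker := by
    rw [commutator_def, Subgroup.commutator_le]
    intro x _ y _
    rw [MonoidHom.mem_ker, commutatorElement_def, map_mul, map_mul, map_mul, hf x y,
      mul_assoc (f y), ← map_mul f x, mul_inv_cancel, map_one, mul_one, ← map_mul,
      mul_inv_cancel, map_one]
  exact fun x hx => this hx

theorem triv_of_dim_one (ρ : Representation ℂ G V) (h : finrank ℂ V = 1) :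
    ∀ x ∈ commutator G, ρ x = 1 := by
  refine Basic1_comm ρ fun x y => ?_
  obtain ⟨v, -, hv⟩ := finrank_eq_one_iff'.1 h
  obtain ⟨a, ha⟩ := hv (ρ x v)
  obtain ⟨b, hb⟩ := hv (ρ y v)
  ext w
  obtain ⟨c, rfl⟩ := hv w
  simp only [Module.End.mul_apply, map_smul, ← ha, ← hb]
  rw [smul_comm a b]

theorem det_commutator (ρ : Representation ℂ G V) :
    ∀ x ∈ commutator G, LinearMap.det (ρ x) = 1 := by
  exact Basic1_comm (LinearMap.det.comp ρ) fun x y => mul_comm _ _

/-- a normal subgroup acting nontrivially has no fixed vector -/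
theorem fix_normal {ρ : Representation ℂ G V} (hρ : Irr ρ) (K : Subgroup G) [K.Normal]
    (hK : ∃ x ∈ K, ρ x ≠ 1) (v : V) (hv : ∀ x ∈ K, ρ x v = v) : v = 0 := by
  let U : Submodule ℂ V :=
    { carrier := {w | ∀ x ∈ K, ρ x w = w}
      add_mem' := fun {a b} ha hb x hx => by rw [map_add, ha x hx, hb x hx]
      zero_mem' := fun x _ => map_zero _
      smul_mem' := fun c a ha x hx => by rw [map_smul, ha x hx] }
  have hinv : ∀ g, ∀ w ∈ U, ρ g w ∈ U := by
    intro g w hw x hx
    have h1 := hw (g⁻¹ * x * g) (Subgroup.Normal.conj_mem' inferInstance x hx g)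
    have h2 : x * g = g * (g⁻¹ * x * g) := by group
    rw [← Module.End.mul_apply, ← map_mul, h2, map_mul, Module.End.mul_apply, h1]
  rcases hρ.2 U hinv with h | h
  · have : v ∈ U := hv
    rwa [h, Submodule.mem_bot] at this
  · obtain ⟨x, hx, hne⟩ := hK
    refine absurd (LinearMap.ext fun w => ?_) hne
    have : w ∈ U := h ▸ Submodule.mem_top
    exact this x hx

theorem surj_of_over {ρ : Representation ℂ G V} {H : Subgroup G} {σ : Representation ℂ H W}
    (hσ : Irr σ) {φ : V →ₗ[ℂ] W} (hφ : φ ≠ 0) (hc : ∀ (h : H) v, φ (ρ h v) = σ h (φ v)) :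
    Function.Surjective φ := by
  have hinv : ∀ g, ∀ w ∈ LinearMap.range φ, σ g w ∈ LinearMap.range φ := by
    rintro g _ ⟨v, rfl⟩
    exact ⟨_, hc g v⟩
  rcases hσ.2 _ hinv with h | h
  · exact absurd (LinearMap.range_eq_bot.1 h) hφ
  · exact LinearMap.range_eq_top.1 h

theorem ne_one_of_over {ρ : Representation ℂ G V} {H : Subgroup G} {σ : Representation ℂ H W}
    (hσ : Irr σ) {φ : V →ₗ[ℂ] W} (hφ : φ ≠ 0) (hc : ∀ (h : H) v, φ (ρ h v) = σ h (φ v))
    (x : H) (hx : σ x ≠ 1) : ρ x ≠ 1 := by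
  intro h1
  refine hx (LinearMap.ext fun w => ?_)
  obtain ⟨v, rfl⟩ := surj_of_over hσ hφ hc w
  rw [← hc, h1]
  rfl

end Pool.Agent.MP_f0649b_al
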