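import Pool.Agent.MP_f0649b_al.Basic

/-! Comparison with simple objects of the category of representations. -/

open Module

namespace Pool.Agent.MP_f0649b_al

section aux

variable {G V : Type} [Group G] [AddCommGroup V] [Module ℂ V]

theorem Bridge_irr_iff (ρ : Representation ℂ G V) : Irr ρ ↔ ρ.IsIrreducible := by
  constructor
  · rintro ⟨hV, h⟩
    have : Nontrivial (Subrepresentation ρ) := ⟨⊥, ⊤, fun e => by
      have : (⊥ : Submodule ℂ V) = ⊤ := congrArg Subrepresentation.toSubmodule e
      exact bot_ne_top this⟩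
    refine ⟨fun U => ?_⟩
    rcases h U.toSubmodule (fun g v hv => U.apply_mem_toSubmodule g hv) with h1 | h1
    · exact Or.inl (Subrepresentation.toSubmodule_injective h1)
    · exact Or.inr (Subrepresentation.toSubmodule_injective h1)
  · intro h
    constructor
    · by_contra hv
      rw [not_nontrivial_iff_subsingleton] at hv
      refine (bot_ne_top (α := Subrepresentation ρ)) ?_
      exact Subrepresentation.toSubmodule_injective (Subsingleton.elim _ _)
    · intro S hS
      rcases h.eq_bot_or_eq_top ⟨S, fun g v hv => hS g v hv⟩ with h1 | h1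
      · exact Or.inl (congrArg Subrepresentation.toSubmodule h1)
      · exact Or.inr (congrArg Subrepresentation.toSubmodule h1)

theorem Bridge_finrank_le [Finite G] {ρ : Representation ℂ G V} (h : Irr ρ) :
    finrank ℂ V ≤ Nat.card G := by
  classical
  have := Fintype.ofFinite G
  obtain ⟨hV, h⟩ := h
  obtain ⟨v, hv⟩ := exists_ne (0 : V)
  have h1 := h (Submodule.span ℂ (Set.range fun g => ρ g v)) (fun g w hw => by
    refine Submodule.span_induction (p := fun w _ => ρ g w ∈
      Submodule.span ℂ (Set.range fun g => ρ g v)) ?_ (by simp) ?_ ?_ hw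
    · rintro _ ⟨x, rfl⟩
      exact Submodule.subset_span ⟨g * x, by simp⟩
    · intro x y _ _ hx hy
      rw [map_add]
      exact add_mem hx hy
    · intro c x _ hx
      rw [map_smul]
      exact Submodule.smul_mem _ c hx)
  rcases h1 with h1 | h1
  · exfalso
    have : v ∈ Submodule.span ℂ (Set.range fun g => ρ g v) := Submodule.subset_span ⟨1, by simp⟩
    rw [h1] at this
    exact hv this
  · rw [Nat.card_eq_fintype_card]
    exact finrank_le_of_span_eq_top h1

theorem Bridge_card_ne [Finite G] : (Nat.card G : ℂ) ≠ 0 := by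
  exact_mod_cast (Nat.card_pos (α := G)).ne'

open Representation in
theorem Bridge_of_norm [Fintype G] [FiniteDimensional ℂ V] (ρ : Representation ℂ G V)
    (h : ∑ g, ρ.character g * ρ.character g⁻¹ = Nat.card G) : Irr ρ := by
  have := invertibleOfNonzero (Bridge_card_ne (G := G))
  have h1 := card_inv_mul_sum_char_mul_char_eq_finrank ρ ρ
  rw [h, inv_mul_cancel₀ Bridge_card_ne] at h1
  have h2 : finrank ℂ (IntertwiningMap ρ ρ) = 1 := by exact_mod_cast h1.symm
  have hV : ∃ v : V, v ≠ 0 := by
    by_contra hv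
    push Not at hv
    have : Subsingleton (IntertwiningMap ρ ρ) := ⟨fun a b => by
      ext v
      rw [hv (a.toLinearMap v), hv (b.toLinearMap v)]⟩
    rw [finrank_zero_of_subsingleton] at h2
    exact zero_ne_one h2
  obtain ⟨v₀, hv₀⟩ := hV
  refine ⟨⟨v₀, 0, hv₀⟩, fun S hS => ?_⟩
  have : NeZero (Nat.card G : ℂ) := ⟨Bridge_card_ne⟩
  obtain ⟨T, hT⟩ := exists_isCompl (⟨S, fun g v hv => hS g v hv⟩ : Subrepresentation ρ)
  have hT' : IsCompl S T.toSubmodule := by
    refine ⟨disjoint_iff.2 ?_, codisjoint_iff.2 ?_⟩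
    · exact congrArg Subrepresentation.toSubmodule hT.inf_eq_bot
    · exact congrArg Subrepresentation.toSubmodule hT.sup_eq_top
  let P : V →ₗ[ℂ] V := S.projection _ hT'
  have hP1 : ∀ v ∈ S, P v = v := fun v hv => Submodule.projection_apply_of_mem_left hT' hv
  have hP2 : ∀ v ∈ T.toSubmodule, P v = 0 := fun v hv =>
    (Submodule.projection_apply_eq_zero_iff hT').2 hv
  have hP : ∀ g v, P (ρ g v) = ρ g (P v) := by
    intro g v
    have : v ∈ S ⊔ T.toSubmodule := hT'.sup_eq_top ▸ Submodule.mem_top
    obtain ⟨a, ha, b, hb, rfl⟩ := Submodule.mem_sup.1 this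
    rw [map_add, map_add, map_add, hP1 a ha, hP2 b hb, hP1 _ (hS g a ha),
      hP2 _ (T.apply_mem_toSubmodule g hb), map_add, map_zero]
  have hid : (IntertwiningMap.id ρ) ≠ 0 := fun h => hv₀ (by
    simpa using congrArg (fun f : IntertwiningMap ρ ρ => f v₀) h)
  obtain ⟨c, hc⟩ := (finrank_eq_one_iff_of_nonzero' _ hid).1 h2 ⟨P, fun g => LinearMap.ext (hP g)⟩
  have hc' : ∀ v, P v = c • v := fun v => by
    simpa using (congrArg (fun f : IntertwiningMap ρ ρ => f v) hc).symm
  by_cases hc0 : c = 0
  · left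
    rw [eq_bot_iff]
    intro v hv
    have := hP1 v hv
    rw [hc', hc0, zero_smul] at this
    simp [← this]
  · right
    rw [eq_top_iff]
    intro v _
    have : c • v ∈ S := by
      rw [← hc']
      exact Submodule.projection_apply_mem hT' v
    exact (S.smul_mem_iff hc0).1 this

theorem Bridge_norm [Fintype G] [FiniteDimensional ℂ V] (ρ : Representation ℂ G V) (h : Irr ρ) :
    ∑ g, ρ.character g * ρ.character g⁻¹ = Nat.card G := by
  have := invertibleOfNonzero (Bridge_card_ne (G := G))
  have := (Bridge_irr_iff ρ).1 h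
  have h1 := Representation.char_orthonormal ρ ρ
  rw [if_pos ⟨Representation.Equiv.refl ρ⟩, inv_mul_eq_one₀ Bridge_card_ne] at h1
  exact h1.symm

end aux

theorem cd_finite (G : Type) [Group G] [Finite G] : (cd G).Finite := by
  refine (Set.finite_Iic (Nat.card G)).subset ?_
  rintro d ⟨V, _, _, _, ρ, h, rfl⟩
  exact Bridge_finrank_le h

theorem cd_eq (G : Type) [Group G] [Finite G] :
    cd G = {d : ℕ | ∃ V : FDRep ℂ G, CategoryTheory.Simple V ∧ Module.finrank ℂ V = d} := by
  have := Fintype.ofFinite G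
  ext d
  constructor
  · rintro ⟨V, _, _, _, ρ, h, rfl⟩
    exact ⟨FDRep.of ρ, (FDRep.simple_iff_char_is_norm_one _).2 (Bridge_norm ρ h), rfl⟩
  · rintro ⟨V, h, rfl⟩
    exact ⟨V, inferInstance, inferInstance, inferInstance, V.ρ,
      Bridge_of_norm V.ρ ((FDRep.simple_iff_char_is_norm_one V).1 h), rfl⟩

end Pool.Agent.MP_f0649b_al
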