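import Pool.Agent.MP_f0649b_al.Basic

/-! Divisibility of degrees. -/

open Module

namespace Pool.Agent.MP_f0649b_al

variable {G : Type} [Group G] {V W : Type} [AddCommGroup V] [Module ℂ V] [AddCommGroup W]
  [Module ℂ W]

theorem cl1 [FiniteDimensional ℂ V] {ρ : Representation ℂ G V} (hρ : Irr ρ) (M : Subgroup G)
    [M.Normal] {σ : Representation ℂ M W} (hσ : Irr σ) {φ : V →ₗ[ℂ] W} (hφ : φ ≠ 0)
    (hc : ∀ (h : M) v, φ (ρ h v) = σ h (φ v)) : finrank ℂ W ∣ finrank ℂ V := by
  have hK : (⨅ g : G, LinearMap.ker (φ ∘ₗ ρ g)) = ⊥ := by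
    refine (hρ.2 _ fun g v hv => ?_).resolve_right fun h => hφ ?_
    · rw [Submodule.mem_iInf] at hv ⊢
      intro x
      have := hv (x * g)
      rwa [map_mul] at this
    · ext v
      have := (Submodule.mem_iInf _).1 (h ▸ Submodule.mem_top (x := v)) 1
      simpa using this
  have key : ∀ n, ∀ Y : Submodule ℂ V, (∀ h ∈ M, ∀ v ∈ Y, ρ h v ∈ Y) → finrank ℂ Y = n →
      finrank ℂ W ∣ n := by
    intro n
    induction n using Nat.strong_induction_on with
    | _ n ih =>
      intro Y hY hn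
      by_cases h0 : Y = ⊥
      · rw [← hn, h0, finrank_bot]
        exact dvd_zero _
      obtain ⟨g, hg⟩ : ∃ g : G, ¬ Y ≤ LinearMap.ker (φ ∘ₗ ρ g) := by
        by_contra h
        push Not at h
        exact h0 (le_bot_iff.1 (hK ▸ le_iInf h))
      have e1 : ∀ (h : G) (hh : h ∈ M) v, φ (ρ g (ρ h v)) =
          σ ⟨g * h * g⁻¹, Subgroup.Normal.conj_mem inferInstance h hh g⟩ (φ (ρ g v)) := by
        intro h hh v
        rw [← hc, ← Module.End.mul_apply, ← map_mul, ← Module.End.mul_apply, ← map_mul,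
          inv_mul_cancel_right]
      have ht : Y.map (φ ∘ₗ ρ g) = ⊤ := by
        refine (hσ.2 _ ?_).resolve_left fun h => hg (LinearMap.le_ker_iff_map.2 h)
        rintro h _ ⟨v, hv, rfl⟩
        have hh : g⁻¹ * h * g ∈ M := Subgroup.Normal.conj_mem' inferInstance _ h.2 g
        refine ⟨ρ (g⁻¹ * h * g) v, hY _ hh v hv, (e1 _ hh v).trans ?_⟩
        congr 2
        exact Subtype.ext (by simp [mul_assoc])
      have h1 := ((φ ∘ₗ ρ g).domRestrict Y).finrank_range_add_finrank_ker
      rw [LinearMap.range_domRestrict, ht, finrank_top, hn,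
        ← Submodule.finrank_map_subtype_eq Y, LinearMap.ker_domRestrict,
        Submodule.map_comap_subtype] at h1
      have := hσ.1
      have : Module.Finite ℂ W := Module.Finite.of_surjective (φ ∘ₗ ρ g)
        (LinearMap.range_eq_top.1 (top_le_iff.1 (ht ▸ LinearMap.map_le_range)))
      have h2 : 0 < finrank ℂ W := finrank_pos
      rw [← h1]
      refine dvd_add dvd_rfl (ih _ (by omega) (Y ⊓ LinearMap.ker (φ ∘ₗ ρ g))
        (fun h hh v hv => ⟨hY h hh v hv.1, ?_⟩) rfl)
      have h3 : φ (ρ g v) = 0 := hv.2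
      exact (e1 h hh v).trans (by rw [h3, map_zero])
  exact key _ ⊤ (fun _ _ _ _ => trivial) (finrank_top ℂ V)

end Pool.Agent.MP_f0649b_al
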