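import Pool.Agent.MP_f0649b_al.Basic

/-! Decomposition into irreducible constituents, and induction. -/

open Module

namespace Pool.Agent.MP_f0649b_al

variable {G : Type} [Group G] {V W : Type} [AddCommGroup V] [Module ℂ V] [AddCommGroup W]
  [Module ℂ W]

theorem Dec_sub [Finite G] [FiniteDimensional ℂ V] (ρ : Representation ℂ G V)
    (Q : Submodule ℂ V → Prop) (h0 : Q ⊥)
    (h1 : ∀ U : Subrepresentation ρ, Irr U.toRepresentation → Q U.toSubmodule)
    (h2 : ∀ U U', U ⊓ U' = ⊥ → Q U → Q U' → Q (U ⊔ U')) : Q ⊤ := by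
  have : NeZero (Nat.card G : ℂ) := ⟨Nat.cast_ne_zero.2 Nat.card_pos.ne'⟩
  obtain ⟨U, ⟨hU, hQ⟩, hmax⟩ := wellFounded_gt.has_min
    {U : Submodule ℂ V | (∀ g, ∀ v ∈ U, ρ g v ∈ U) ∧ Q U} ⟨⊥, by simp, h0⟩
  obtain ⟨U', hc⟩ := exists_isCompl (⟨U, hU⟩ : Subrepresentation ρ)
  have c1 : U ⊓ U'.toSubmodule = ⊥ := congrArg Subrepresentation.toSubmodule hc.inf_eq_bot
  have c2 : U ⊔ U'.toSubmodule = ⊤ := congrArg Subrepresentation.toSubmodule hc.sup_eq_top
  by_cases e : U'.toSubmodule = ⊥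
  · rw [e, sup_bot_eq] at c2
    exact c2 ▸ hQ
  obtain ⟨T, ⟨hT, hT0, hle⟩, hmin⟩ := wellFounded_lt.has_min
    {T : Submodule ℂ V | (∀ g, ∀ v ∈ T, ρ g v ∈ T) ∧ T ≠ ⊥ ∧ T ≤ U'.toSubmodule}
    ⟨U'.toSubmodule, U'.apply_mem_toSubmodule, e, le_rfl⟩
  have c3 : U ⊓ T = ⊥ := le_bot_iff.1 (c1 ▸ inf_le_inf_left U hle)
  have hi : Irr (⟨T, hT⟩ : Subrepresentation ρ).toRepresentation := by
    refine ⟨Submodule.nontrivial_iff_ne_bot.2 hT0, fun (S : Submodule ℂ T) hS => ?_⟩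
    refine or_iff_not_imp_left.2 fun hb =>
      Submodule.map_injective_of_injective T.injective_subtype ?_
    rw [Submodule.map_subtype_top]
    refine (T.map_subtype_le S).eq_of_not_lt (hmin _ ⟨?_, fun e' => hb ?_,
      (T.map_subtype_le S).trans hle⟩)
    · rintro g _ ⟨v, hv, rfl⟩
      exact ⟨_, hS g v hv, rfl⟩
    · exact Submodule.map_injective_of_injective T.injective_subtype
        (e'.trans (Submodule.map_bot _).symm)
  refine absurd (left_lt_sup.2 fun hTU => hT0 ?_) (hmax (U ⊔ T) ⟨fun g v hv => ?_,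
    h2 U T c3 hQ (h1 ⟨T, hT⟩ hi)⟩)
  · rw [← c3, inf_eq_right.2 hTU]
  · obtain ⟨a, ha, b, hb, rfl⟩ := Submodule.mem_sup.1 hv
    rw [map_add]
    exact Submodule.add_mem_sup (hU g a ha) (hT g b hb)

theorem Dec_rank [Finite G] [FiniteDimensional ℂ W] (H : Subgroup G) (σ : Representation ℂ H W) :
    finrank ℂ (Representation.coindV H.subtype σ) = H.index * finrank ℂ W := by
  have := Fintype.ofFinite (G ⧸ H)
  let L : Representation.coindV H.subtype σ →ₗ[ℂ] (G ⧸ H → W) :=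
    (LinearMap.funLeft ℂ W fun c : G ⧸ H => c.out⁻¹).comp (Submodule.subtype _)
  have hm : ∀ g : G, g * (QuotientGroup.mk g⁻¹ : G ⧸ H).out ∈ H := fun g => by
    have := QuotientGroup.eq.1 (QuotientGroup.out_eq' (QuotientGroup.mk g⁻¹ : G ⧸ H)).symm
    rwa [inv_inv] at this
  have hb : Function.Bijective L := by
    refine ⟨(injective_iff_map_eq_zero L).2 fun f hf => Subtype.ext (funext fun g => ?_),
      fun F => ⟨⟨fun g => σ ⟨_, hm g⟩ (F (QuotientGroup.mk g⁻¹)), fun h g => ?_⟩, ?_⟩⟩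
    · have h1 := f.2 ⟨_, hm g⟩ (QuotientGroup.mk g⁻¹ : G ⧸ H).out⁻¹
      have h2 : f.1 (QuotientGroup.mk g⁻¹ : G ⧸ H).out⁻¹ = 0 := congrFun hf (QuotientGroup.mk g⁻¹)
      rw [h2, map_zero] at h1
      simpa using h1
    · have e : (QuotientGroup.mk (H.subtype h * g)⁻¹ : G ⧸ H) = QuotientGroup.mk g⁻¹ :=
        QuotientGroup.eq.2 (by simp)
      have e' : (⟨_, hm (H.subtype h * g)⟩ : H) = h * ⟨_, hm g⟩ :=
        Subtype.ext ((congrArg (fun c : G ⧸ H => h * g * c.out) e).trans (mul_assoc _ _ _))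
      dsimp only
      rw [e', e, map_mul, Module.End.mul_apply]
    · funext c
      change σ ⟨_, hm c.out⁻¹⟩ (F (QuotientGroup.mk c.out⁻¹⁻¹)) = F c
      have e : (⟨_, hm c.out⁻¹⟩ : H) = 1 := Subtype.ext (by simp)
      rw [e, map_one, inv_inv, QuotientGroup.out_eq', Module.End.one_apply]
  rw [(LinearEquiv.ofBijective L hb).finrank_eq, Module.finrank_pi_fintype, Finset.sum_const,
    Finset.card_univ, smul_eq_mul, Subgroup.index, Nat.card_eq_fintype_card]

theorem dec [Finite G] [FiniteDimensional ℂ V] (ρ : Representation ℂ G V) (P : ℕ → Prop)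
    (h0 : P 0) (hadd : ∀ a b, P a → P b → P (a + b))
    (h : ∀ (V' : Type) [AddCommGroup V'] [Module ℂ V'] [FiniteDimensional ℂ V']
      (ρ' : Representation ℂ G V'), Irr ρ' → ∀ ι : V' →ₗ[ℂ] V, Function.Injective ι →
      (∀ g v, ι (ρ' g v) = ρ g (ι v)) → P (finrank ℂ V')) : P (finrank ℂ V) := by
  rw [← finrank_top ℂ V]
  refine Dec_sub ρ (fun U => P (finrank ℂ U)) (by rwa [finrank_bot]) (fun U hU =>
    h _ _ hU U.toSubmodule.subtype U.toSubmodule.injective_subtype fun _ _ => rfl)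
    fun U U' e a b => ?_
  have := Submodule.finrank_sup_add_finrank_inf_eq U U'
  rw [e, finrank_bot, add_zero] at this
  rw [this]
  exact hadd _ _ a b

theorem dec_ne [Finite G] [FiniteDimensional ℂ V] (ρ : Representation ℂ G V) (K : Subgroup G)
    (hx : ∃ x ∈ K, ρ x ≠ 1) : ∃ d, d ≤ finrank ℂ V ∧ Dg K d := by
  obtain ⟨x, hK, hx⟩ := hx
  by_contra hn
  refine hx (LinearMap.ext fun v => Dec_sub ρ (fun U => ∀ v ∈ U, ρ x v = v) (by simp)
    (fun U hU w hw => ?_) (fun U U' _ a b w hw => ?_) v trivial)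
  · by_contra e
    exact hn ⟨_, U.toSubmodule.finrank_le, _, _, _, inferInstance, _, hU, rfl, x, hK,
      fun e' => e (congrArg Subtype.val (LinearMap.congr_fun e' ⟨w, hw⟩))⟩
  · obtain ⟨c, hc, d, hd, rfl⟩ := Submodule.mem_sup.1 hw
    rw [map_add, a c hc, b d hd]

theorem ind [Finite G] [FiniteDimensional ℂ W] (H : Subgroup G) (σ : Representation ℂ H W)
    (P : ℕ → Prop) (h0 : P 0) (hadd : ∀ a b, P a → P b → P (a + b))
    (h : ∀ (V' : Type) [AddCommGroup V'] [Module ℂ V'] [FiniteDimensional ℂ V']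
      (ρ' : Representation ℂ G V'), Irr ρ' → ∀ φ : V' →ₗ[ℂ] W, φ ≠ 0 →
      (∀ (x : H) v, φ (ρ' x v) = σ x (φ v)) → P (finrank ℂ V')) :
    P (H.index * finrank ℂ W) := by
  rw [← Dec_rank H σ]
  refine dec (Representation.coind H.subtype σ) P h0 hadd fun V' _ _ _ ρ' hρ ι hι hc =>
    h V' ρ' hρ ((LinearMap.proj (1 : G)).comp ((Submodule.subtype _).comp ι)) (fun e => ?_)
      fun x v => ?_
  · have := hρ.1
    obtain ⟨v, hv⟩ := exists_ne (0 : V')
    refine hv (hι (Subtype.ext (funext fun g => ?_)))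
    have h1 : (ι (ρ' g v)).1 1 = 0 := LinearMap.congr_fun e (ρ' g v)
    have h2 : (ι (ρ' g v)).1 1 = (ι v).1 (1 * g) := by
      rw [hc]
      rfl
    rw [h2, one_mul] at h1
    rw [h1, map_zero]
    rfl
  · have h2 : (ι (ρ' x v)).1 1 = (ι v).1 (1 * x) := by
      rw [hc]
      rfl
    have h3 := (ι v).2 x 1
    rw [mul_one] at h3
    rw [one_mul] at h2
    exact h2.trans h3

end Pool.Agent.MP_f0649b_al
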