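import Mathlib

/-! Character degrees and the derived length: definitions. -/

open Module

namespace Pool.Agent.MP_f0649b_al

/-- irreducible representation, in elementary form -/
def Irr {k G V : Type} [Field k] [Group G] [AddCommGroup V] [Module k V]
    (ρ : Representation k G V) : Prop :=
  Nontrivial V ∧ ∀ U : Submodule k V, (∀ g, ∀ v ∈ U, ρ g v ∈ U) → U = ⊥ ∨ U = ⊤

/-- `d` is the degree of an irreducible representation whose kernel does not contain `K` -/
def Dg {G : Type} [Group G] (K : Subgroup G) (d : ℕ) : Prop :=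
  ∃ (V : Type) (_ : AddCommGroup V) (_ : Module ℂ V) (_ : FiniteDimensional ℂ V)
    (ρ : Representation ℂ G V), Irr ρ ∧ finrank ℂ V = d ∧ ∃ x ∈ K, ρ x ≠ 1

/-- the set of degrees of irreducible complex representations -/
def cd (G : Type) [Group G] : Set ℕ :=
  {d | ∃ (V : Type) (_ : AddCommGroup V) (_ : Module ℂ V) (_ : FiniteDimensional ℂ V)
    (ρ : Representation ℂ G V), Irr ρ ∧ finrank ℂ V = d}

/-- normal subgroups with commutative image act by scalars -/
def QPrim {G V : Type} [Group G] [AddCommGroup V] [Module ℂ V] (ρ : Representation ℂ G V) : Prop :=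
  ∀ A : Subgroup G, A.Normal → (∀ x ∈ A, ∀ y ∈ A, Commute (ρ x) (ρ y)) →
    ∀ x ∈ A, ∃ c : ℂ, ρ x = c • (1 : Module.End ℂ V)

/-- abelian normal subgroups are central -/
def AbCent (G : Type) [Group G] : Prop :=
  ∀ A : Subgroup G, A.Normal → (∀ x ∈ A, ∀ y ∈ A, Commute x y) → A ≤ Subgroup.center G

/-- every nonlinear degree is at least `f` -/
def MinDeg (G : Type) [Group G] (f : ℕ) : Prop := ∀ d, Dg (commutator G) d → f ≤ d

/-- two nontrivial normal subgroups meet nontrivially -/
def Mono (G : Type) [Group G] : Prop :=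
  ∀ K L : Subgroup G, K.Normal → L.Normal → K ⊓ L = ⊥ → K = ⊥ ∨ L = ⊥

/-- stabiliser of a vector -/
def stab {k G V : Type} [Field k] [Group G] [AddCommGroup V] [Module k V]
    (ρ : Representation k G V) (u : V) : Subgroup G where
  carrier := {g | ρ g u = u}
  one_mem' := by simp
  mul_mem' := by
    intro a b ha hb
    simp only [Set.mem_setOf_eq, map_mul, Module.End.mul_apply] at *
    rw [hb, ha]
  inv_mem' := by
    intro a ha
    simp only [Set.mem_setOf_eq] at *
    conv_lhs => rw [← ha]
    rw [← Module.End.mul_apply, ← map_mul, inv_mul_cancel, map_one, Module.End.one_apply]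

theorem mem_stab {k G V : Type} [Field k] [Group G] [AddCommGroup V] [Module k V]
    {ρ : Representation k G V} {u : V} {g : G} : g ∈ stab ρ u ↔ ρ g u = u := Iff.rfl

end Pool.Agent.MP_f0649b_al
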