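import Pool.Agent.MP_f0649b_al.Defs

/-! Simultaneous eigenspaces. -/

open Module

namespace Pool.Agent.MP_f0649b_al

variable {G : Type} [Group G] {V W : Type} [AddCommGroup V] [Module ℂ V] [AddCommGroup W]
  [Module ℂ W]

theorem eig_indep {K Y B : Type} [Field K] [AddCommGroup Y] [Module K Y]
    (T : B → Module.End K Y) :
    iSupIndep (fun χ : B → K => ⨅ b, Module.End.eigenspace (T b) (χ b)) := by
  classical
  rw [iSupIndep_iff_finsetSum_eq_zero_imp_eq_zero]
  simp only [Submodule.mem_iInf, Module.End.mem_eigenspace_iff]
  intro s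
  induction s using Finset.induction_on with
  | empty => simp
  | insert a s ha ih =>
    intro v hv h0
    rw [Finset.sum_insert ha] at h0
    have key : ∀ i ∈ s, v i = 0 := fun i hi => by
      obtain ⟨b, hb⟩ := Function.ne_iff.1 (show i ≠ a from fun e => ha (e ▸ hi))
      have h1 := congrArg (T b) h0
      rw [map_add, map_sum, map_zero, hv a (Finset.mem_insert_self _ _) b,
        Finset.sum_congr rfl fun j hj => hv j (Finset.mem_insert_of_mem hj) b] at h1
      have h2 := ih (fun j => (j b - a b) • v j)
        (fun j hj c => by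
          rw [map_smul, hv j (Finset.mem_insert_of_mem hj) c, smul_comm])
        (by
          simp only [sub_smul, Finset.sum_sub_distrib, ← Finset.smul_sum]
          rw [eq_neg_of_add_eq_zero_right h0, eq_neg_of_add_eq_zero_right h1, smul_neg, sub_self])
        i hi
      exact (smul_eq_zero.1 h2).resolve_left (sub_ne_zero.2 hb)
    rw [Finset.sum_eq_zero key, add_zero] at h0
    exact Finset.forall_mem_insert _ _ _ |>.2 ⟨h0, key⟩

theorem eig_li {K Y B ι : Type} [Field K] [AddCommGroup Y] [Module K Y]
    (T : B → Module.End K Y) (χ : ι → B → K) (hχ : Function.Injective χ) (v : ι → Y)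
    (hv : ∀ i, v i ≠ 0) (he : ∀ i b, T b (v i) = χ i b • v i) : LinearIndependent K v :=
  ((eig_indep T).comp hχ).linearIndependent _ (fun i => by
    simpa only [Function.comp_apply, Submodule.mem_iInf, Module.End.mem_eigenspace_iff]
      using he i) hv

end Pool.Agent.MP_f0649b_al
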