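import Pool.Agent.MP_f0649b_al.Defs

/-! Group theoretic lemmas. -/

namespace Pool.Agent.MP_f0649b_al

variable {G : Type} [Group G]

theorem Grp_normal (N : Subgroup G) [N.Normal] (i : ℕ) : (N.lowerCentralSeries i).Normal := by
  induction i with
  | zero => assumption
  | succ i _ =>
    rw [Subgroup.lowerCentralSeries_succ]
    infer_instance

theorem Grp_center {K : Subgroup G} (h : K ≤ Subgroup.center G) (N : Subgroup G) :
    ⁅K, N⁆ = ⊥ :=
  Subgroup.commutator_eq_bot_iff_le_centralizer.2 (h.trans (Subgroup.center_le_centralizer _))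

open scoped commutatorElement in
theorem Grp_comm {a b c d : G} (h1 : Commute c (b * d)) (h2 : Commute d a) :
    ⁅a * c, b * d⁆ = ⁅a, b⁆ := by
  have e1 : c * (b * d) * c⁻¹ = b * d := by rw [h1.eq, mul_inv_cancel_right]
  have e2 : d * a⁻¹ * d⁻¹ = a⁻¹ := by rw [h2.inv_right.eq, mul_inv_cancel_right]
  calc ⁅a * c, b * d⁆ = a * (c * (b * d) * c⁻¹) * a⁻¹ * (b * d)⁻¹ := by
        rw [commutatorElement_def]
        group
    _ = a * b * (d * a⁻¹ * d⁻¹) * b⁻¹ := by
        rw [e1]
        group
    _ = ⁅a, b⁆ := by rw [e2, commutatorElement_def]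

theorem comm_lt (N K : Subgroup G) (hN : Group.IsNilpotent N) (hK : K ≤ N) (h : K ≤ ⁅K, N⁆) :
    K = ⊥ := by
  obtain ⟨n, hn⟩ := (Subgroup.isNilpotent_iff_lowerCentralSeries N).1 hN
  have key : ∀ i, K ≤ N.lowerCentralSeries i := by
    intro i
    induction i with
    | zero => exact hK
    | succ i ih => exact h.trans (Subgroup.commutator_mono ih le_rfl)
  exact eq_bot_iff.2 (hn ▸ key n)

theorem np [Finite G] (hG : AbCent G) (N : Subgroup G) [N.Normal] (hN : Group.IsNilpotent N) :
    ⁅N, N⁆ ≤ Subgroup.center G := by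
  obtain ⟨n, hn⟩ := (Subgroup.isNilpotent_iff_lowerCentralSeries N).1 hN
  have key : ∀ i, N.lowerCentralSeries (i + 1) ≤ Subgroup.center G →
      ⁅N, N⁆ ≤ Subgroup.center G := by
    intro i
    induction i with
    | zero => exact id
    | succ i ih =>
      refine fun h => ih (hG _ (Grp_normal N _) fun x hx y hy => ?_)
      have h1 : ⁅⁅N.lowerCentralSeries (i + 1), N⁆, N⁆ = ⊥ := Grp_center h N
      have h2 : ⁅⁅N, N⁆, N.lowerCentralSeries (i + 1)⁆ = ⊥ :=
        Subgroup.commutator_commutator_eq_bot_of_rotate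
          (by rwa [Subgroup.commutator_comm N (N.lowerCentralSeries (i + 1))]) h1
      have h3 : x ∈ ⁅N, N⁆ := N.lowerCentralSeries_antitone (Nat.le_add_left 1 i) hx
      exact (Subgroup.commutator_eq_bot_iff_le_centralizer.1 h2 h3 y hy).symm
  refine key n (((N.lowerCentralSeries_antitone (Nat.le_succ n)).trans hn.le).trans bot_le)

theorem comm_of_abcent [Finite G] (hG : AbCent G) (hN : Group.IsNilpotent G) (x y : G) :
    Commute x y := by
  have h1 : commutator G ≤ Subgroup.center G := np hG ⊤ (Group.isNilpotent_top.2 hN)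
  have h2 : (Subgroup.zpowers x ⊔ Subgroup.center G).Normal :=
    Subgroup.Normal.of_commutator_le G (h1.trans le_sup_right)
  have h3 := hG _ h2 fun a ha b hb => by
    obtain ⟨_, ⟨k, rfl⟩, z, hz, rfl⟩ := Subgroup.mem_sup_of_normal_right.1 ha
    obtain ⟨_, ⟨l, rfl⟩, w, hw, rfl⟩ := Subgroup.mem_sup_of_normal_right.1 hb
    exact ((Commute.zpow_zpow_self x k l).mul_right (Subgroup.mem_center_iff.1 hw _)).mul_left
      (Subgroup.mem_center_iff.1 hz _).symm
  exact (Subgroup.mem_center_iff.1 (h3 (Subgroup.mem_sup_left (Subgroup.mem_zpowers x))) y).symm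

theorem le_of_sup_comm [Finite G] (N H : Subgroup G) [N.Normal] (hN : Group.IsNilpotent N)
    (h : N ≤ H ⊔ ⁅N, N⁆) : N ≤ H := by
  obtain ⟨n, hn⟩ := (Subgroup.isNilpotent_iff_lowerCentralSeries N).1 hN
  have key : ∀ i, N ≤ H ⊔ N.lowerCentralSeries i := by
    intro i
    induction i with
    | zero => exact le_sup_right
    | succ i ih =>
      have := Grp_normal N i
      have := Grp_normal N (i + 1)
      refine h.trans (sup_le le_sup_left (Subgroup.commutator_le.2 fun a ha b hb => ?_))
      obtain ⟨h1, k1, c1, l1, rfl⟩ := Subgroup.mem_sup_of_normal_right.1 (ih ha)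
      obtain ⟨h2, k2, c2, l2, rfl⟩ := Subgroup.mem_sup_of_normal_right.1 (ih hb)
      have hc : ∀ c ∈ N.lowerCentralSeries i, ∀ x ∈ N,
          Commute (QuotientGroup.mk' (N.lowerCentralSeries (i + 1)) c)
            (QuotientGroup.mk' (N.lowerCentralSeries (i + 1)) x) := fun c hc x hx => by
        rw [← commutatorElement_eq_one_iff_commute, ← map_commutatorElement, ← MonoidHom.mem_ker,
          QuotientGroup.ker_mk']
        exact Subgroup.commutator_mem_commutator hc hx
      have m1 : h1 ∈ N := (N.mul_mem_cancel_right (N.lowerCentralSeries_le_self i l1)).1 ha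
      rw [← QuotientGroup.ker_mk' (N.lowerCentralSeries (i + 1)), ← Subgroup.comap_map_eq,
        Subgroup.mem_comap, map_commutatorElement, map_mul, map_mul,
        Grp_comm (by rw [← map_mul]; exact hc c1 l1 _ hb) (hc c2 l2 _ m1), ← map_commutatorElement]
      exact Subgroup.mem_map_of_mem _
        (H.mul_mem (H.mul_mem (H.mul_mem k1 k2) (H.inv_mem k1)) (H.inv_mem k2))
  have h1 := key n
  rwa [hn, sup_bot_eq] at h1

theorem derived_sub (H : Subgroup G) (h : commutator G ≤ ⁅H, H⁆) (i : ℕ) :
    (derivedSeries H (i + 1)).map H.subtype = derivedSeries G (i + 1) := by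
  induction i with
  | zero =>
    rw [derivedSeries_one, derivedSeries_one, Subgroup.map_subtype_commutator]
    exact le_antisymm (Subgroup.commutator_mono le_top le_top) h
  | succ i ih =>
    rw [derivedSeries_succ, derivedSeries_succ G (i + 1), Subgroup.map_commutator, ih]

end Pool.Agent.MP_f0649b_al
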