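import Pool.Agent.MP_f0649b_al.Basic
import Pool.Agent.MP_f0649b_al.Grp

/-! Passing to the faithful quotient. -/

open Module

namespace Pool.Agent.MP_f0649b_al

variable {G : Type} [Group G] {V W : Type} [AddCommGroup V] [Module ℂ V] [AddCommGroup W]
  [Module ℂ W]

theorem faithful_quot {k U : Type} [Field k] [AddCommGroup U] [Module k U] [Finite G]
    (ρ : Representation k G U) :
    ∃ (X : Type) (_ : Group X) (_ : Finite X) (π : G →* X) (ψ : Representation k X U),
      Function.Surjective π ∧ Function.Injective ψ ∧ ∀ g, ψ (π g) = ρ g := by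
  refine ⟨G ⧸ MonoidHom.ker ρ, inferInstance, inferInstance, QuotientGroup.mk' _,
    QuotientGroup.lift _ ρ fun _ h => h, QuotientGroup.mk'_surjective _, fun a b => ?_,
    fun _ => rfl⟩
  induction a using QuotientGroup.induction_on
  induction b using QuotientGroup.induction_on
  exact fun h => QuotientGroup.eq.2 ((MonoidHom.eq_iff ρ).1 h.symm)

theorem abcent_of_qprim {X : Type} [Group X] {ρ : Representation ℂ G V} (hρ : QPrim ρ)
    (π : G →* X) (ψ : Representation ℂ X V) (hπ : Function.Surjective π)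
    (hψ : Function.Injective ψ) (h : ∀ g, ψ (π g) = ρ g) : AbCent X := by
  intro A hA hc x hx
  obtain ⟨g, rfl⟩ := hπ x
  obtain ⟨c, e⟩ := hρ (A.comap π) (hA.comap π)
    (fun x hx y hy => by rw [← h, ← h]; exact (hc _ hx _ hy).map ψ) g hx
  refine Subgroup.mem_center_iff.2 fun y => hψ ?_
  rw [map_mul, map_mul, h, e, mul_smul_comm, smul_mul_assoc, mul_one, one_mul]

theorem Quo_comm {X : Type} [Group X] {H K : Subgroup X} (h : H ≤ Subgroup.center X) :
    ⁅H, K⁆ = ⊥ :=
  Subgroup.commutator_eq_bot_iff_le_centralizer.2 (h.trans (Subgroup.center_le_centralizer _))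

/-- a normal nilpotent subgroup has metabelian image -/
theorem np_rep [Finite G] {ρ : Representation ℂ G V} (hρ : QPrim ρ) (N : Subgroup G) [N.Normal]
    (hN : Group.IsNilpotent N) : ∀ x ∈ ⁅⁅N, N⁆, ⁅N, N⁆⁆, ρ x = 1 := by
  intro x hx
  obtain ⟨X, _, _, π, ψ, h1, h2, h3⟩ := faithful_quot ρ
  have := Subgroup.Normal.map ‹N.Normal› π h1
  have h4 := np (abcent_of_qprim hρ π ψ h1 h2 h3) (N.map π)
    (Group.nilpotent_of_surjective _ (π.subgroupMap_surjective N))
  have h5 := Subgroup.mem_map_of_mem π hx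
  rw [Subgroup.map_commutator, Subgroup.map_commutator, Quo_comm h4, Subgroup.mem_bot] at h5
  rw [← h3, h5, map_one]

theorem dim_one_of_nilpotent [Finite G] [FiniteDimensional ℂ V] {ρ : Representation ℂ G V}
    (hi : Irr ρ) (hρ : QPrim ρ) (hG : Group.IsNilpotent G) : finrank ℂ V = 1 := by
  obtain ⟨X, _, _, π, ψ, h1, h2, h3⟩ := faithful_quot ρ
  refine dim_one_of_comm hi fun x y => ?_
  rw [← h3, ← h3]
  exact (comm_of_abcent (abcent_of_qprim hρ π ψ h1 h2 h3)
    (Group.nilpotent_of_surjective π h1) _ _).map ψ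

/-- a central commutator is killed by the degree -/
theorem comm_pow_dim [FiniteDimensional ℂ V] {ρ : Representation ℂ G V} (hi : Irr ρ)
    (hf : Function.Injective ρ) {z : G} (hz : z ∈ Subgroup.center G) (hz' : z ∈ commutator G) :
    z ^ finrank ℂ V = 1 := by
  obtain ⟨c, e⟩ := schur hi (ρ z) fun g => by
    rw [← map_mul, ← map_mul, Subgroup.mem_center_iff.1 hz]
  have h1 := det_commutator ρ z hz'
  rw [e, LinearMap.det_smul, map_one, mul_one] at h1
  apply hf
  rw [map_pow, e, smul_pow, h1, one_pow, one_smul, map_one]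

theorem p_dvd [Finite G] [FiniteDimensional ℂ V] {ρ : Representation ℂ G V} (hi : Irr ρ)
    (hρ : QPrim ρ) {p : ℕ} [Fact p.Prime] (hN : IsPGroup p (derivedSeries G 2))
    (hx : ∃ x ∈ derivedSeries G 2, ρ x ≠ 1) : p ∣ finrank ℂ V := by
  obtain ⟨X, _, _, π, ψ, h1, h2, h3⟩ := faithful_quot ρ
  have hA := abcent_of_qprim hρ π ψ h1 h2 h3
  have hi' : Irr ψ := (irr_comp π h1 ψ).1 (by rwa [show ψ.comp π = ρ from MonoidHom.ext h3])
  have hp : IsPGroup p (derivedSeries X 2) := map_derivedSeries_eq h1 2 ▸ hN.map π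
  obtain ⟨z, z1, z2, z3⟩ : ∃ z ∈ derivedSeries X 2, z ≠ 1 ∧ z ∈ Subgroup.center X := by
    by_cases h : ⁅derivedSeries X 2, derivedSeries X 2⁆ = ⊥
    · obtain ⟨x, x1, x2⟩ := hx
      have h4 := map_derivedSeries_le_derivedSeries π 2 (Subgroup.mem_map_of_mem π x1)
      refine ⟨π x, h4, fun e => x2 (by rw [← h3, e, map_one]), hA _ inferInstance
        (fun a ha b hb => commutatorElement_eq_one_iff_commute.1 ?_) h4⟩
      rw [← Subgroup.mem_bot, ← h]
      exact Subgroup.commutator_mem_commutator ha hb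
    · obtain ⟨⟨z, z1⟩, z2⟩ := Subgroup.ne_bot_iff_exists_ne_one.1 h
      exact ⟨z, Subgroup.commutator_le_self _ z1, fun e => z2 (Subtype.ext e),
        np hA _ hp.isNilpotent z1⟩
  obtain ⟨k, hk⟩ := IsPGroup.iff_orderOf.1 hp ⟨z, z1⟩
  rw [Subgroup.orderOf_mk] at hk
  refine (dvd_pow_self p ?_).trans (hk ▸ orderOf_dvd_of_pow_eq_one
    (comm_pow_dim hi' h2 z3 (derivedSeries_antitone X one_le_two z1)))
  rintro rfl
  exact z2 (orderOf_eq_one_iff.1 hk)

end Pool.Agent.MP_f0649b_al
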