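import Pool.Agent.MP_f0649b_al.Dec
import Pool.Agent.MP_f0649b_al.Eig

/-! Induction of linear characters. -/

open Module

namespace Pool.Agent.MP_f0649b_al

variable {G : Type} [Group G] {V W : Type} [AddCommGroup V] [Module ℂ V] [AddCommGroup W]
  [Module ℂ W]

theorem ind_lin [Finite G] (H : Subgroup G) (l : H →* ℂˣ)
    (P : ℕ → Prop) (h0 : P 0) (hadd : ∀ a b, P a → P b → P (a + b))
    (h : ∀ (V' : Type) [AddCommGroup V'] [Module ℂ V'] [FiniteDimensional ℂ V']
      (ρ' : Representation ℂ G V'), Irr ρ' → ∀ φ : V' →ₗ[ℂ] ℂ, φ ≠ 0 →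
      (∀ (x : H) v, φ (ρ' x v) = (l x : ℂ) * φ v) → P (finrank ℂ V')) :
    P H.index := by
  let σ : Representation ℂ H ℂ :=
    { toFun := fun x => (l x : ℂ) • (1 : Module.End ℂ ℂ)
      map_one' := by simp
      map_mul' := fun x y => by
        rw [map_mul, Units.val_mul, smul_mul_smul_comm, one_mul] }
  have := ind H σ P h0 hadd fun V' _ _ _ ρ' hρ φ hφ e => h V' ρ' hρ φ hφ fun x v => by
    rw [e]
    rfl
  rwa [finrank_self, mul_one] at this

theorem mackey [Finite G] (E H : Subgroup G) [E.Normal] (hE : E ≤ H) (l : G → ℂ)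
    (h1 : l 1 = 1) (hm : ∀ x ∈ H, ∀ y ∈ H, l (x * y) = l x * l y)
    (hs : ∀ g, (∀ y ∈ E, l (g * y * g⁻¹) = l y) → g ∈ H) : H.index ∈ cd G := by
  let l0 : H →* ℂ :=
    { toFun := fun x => l x
      map_one' := h1
      map_mul' := fun x y => hm x x.2 y y.2 }
  have hi : H.index ≠ 0 := Subgroup.index_ne_zero_of_finite
  have hn : E.Normal := inferInstance
  have key := ind_lin H l0.toHomUnits
    (fun d => d = 0 ∨ (H.index ≤ d ∧ d ∈ cd G) ∨ 2 * H.index ≤ d) (Or.inl rfl) (by
      rintro a b (rfl | ha) hb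
      · rwa [zero_add]
      rcases hb with rfl | hb
      · exact Or.inr ha
      refine Or.inr (Or.inr ?_)
      rcases ha with ha | ha <;> rcases hb with hb | hb <;> omega) (by
      intro V' _ _ _ ρ' hρ φ hφ e
      refine Or.inr (Or.inl ⟨?_, V', _, _, inferInstance, ρ', hρ, rfl⟩)
      have li := eig_li (fun y : E => (ρ' y).dualMap)
        (fun (c : G ⧸ H) (y : E) => l (c.out⁻¹ * y * c.out)) ?_
        (fun c : G ⧸ H => (φ ∘ₗ ρ' c.out⁻¹ : Dual ℂ V')) ?_ ?_
      · have : Fintype (G ⧸ H) := Fintype.ofFinite _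
        have h2 := li.fintype_card_le_finrank
        rwa [Subspace.dual_finrank_eq, ← Nat.card_eq_fintype_card] at h2
      · intro c c' hc
        have hk : c.out⁻¹ * c'.out ∈ H := hs _ fun z hz => by
          have h2 := congrFun hc ⟨c'.out * z * c'.out⁻¹, hn.conj_mem z hz _⟩
          simp only at h2
          rw [show c'.out⁻¹ * (c'.out * z * c'.out⁻¹) * c'.out = z by group] at h2
          rw [← h2]
          congr 1
          group
        rw [← c.out_eq, ← c'.out_eq]
        exact QuotientGroup.eq.2 hk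
      · intro c hc
        refine hφ (LinearMap.ext fun v => ?_)
        have h2 := LinearMap.congr_fun hc (ρ' c.out v)
        rwa [LinearMap.comp_apply, ← Module.End.mul_apply, ← map_mul, inv_mul_cancel, map_one] at h2
      · intro c y
        refine LinearMap.ext fun v => ?_
        have hy : c.out⁻¹ * y * c.out ∈ H := hE (hn.conj_mem' y y.2 _)
        have h2 := e ⟨_, hy⟩ (ρ' c.out⁻¹ v)
        simp only [← Module.End.mul_apply, ← map_mul, mul_inv_cancel_right] at h2
        simp only [LinearMap.dualMap_apply, LinearMap.comp_apply, LinearMap.smul_apply,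
          ← Module.End.mul_apply, ← map_mul, smul_eq_mul]
        exact h2)
  rcases key with h | h | h
  · exact absurd h hi
  · exact h.2
  · omega

end Pool.Agent.MP_f0649b_al
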