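import Pool.Agent.MP_f0649b_al.Dec

/-! Degrees coming from orbits, and the degree four. -/

open Module

namespace Pool.Agent.MP_f0649b_al

variable {G : Type} [Group G] {V W : Type} [AddCommGroup V] [Module ℂ V] [AddCommGroup W]
  [Module ℂ W]

/-- a line fixed by a normal subgroup makes this subgroup commutative -/
theorem Four_line {ρ : Representation ℂ G V} (hi : Irr ρ) (hf : Function.Injective ρ)
    (B : Subgroup G) [B.Normal] {w : V} (hw : w ≠ 0) (h : ∀ y ∈ B, ∃ c : ℂ, ρ y w = c • w)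
    {a b : G} (ha : a ∈ B) (hb : b ∈ B) : Commute a b := by
  have hs : ⁅B, B⁆ ≤ stab ρ w := by
    rw [Subgroup.commutator_le]
    intro g hg k hk
    obtain ⟨c, hc⟩ := h g hg
    obtain ⟨d, hd⟩ := h k hk
    obtain ⟨c', hc'⟩ := h g⁻¹ (inv_mem hg)
    obtain ⟨d', hd'⟩ := h k⁻¹ (inv_mem hk)
    have e1 : (c' * c) • w = w := by
      rw [mul_smul, ← hc, ← map_smul, ← hc', ← Module.End.mul_apply, ← map_mul, mul_inv_cancel,
        map_one, Module.End.one_apply]
    have e2 : (d' * d) • w = w := by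
      rw [mul_smul, ← hd, ← map_smul, ← hd', ← Module.End.mul_apply, ← map_mul, mul_inv_cancel,
        map_one, Module.End.one_apply]
    rw [mem_stab, commutatorElement_def]
    simp only [map_mul, Module.End.mul_apply, hd', hc', hd, hc, map_smul, smul_smul]
    rw [show d' * (c' * (d * c)) = (d' * d) * (c' * c) by ring, mul_smul, e1, e2]
  by_contra hab
  refine hw (fix_normal hi ⁅B, B⁆ ⟨_, Subgroup.commutator_mem_commutator ha hb, fun e => ?_⟩
    w fun x hx => hs hx)
  exact hab (commutatorElement_eq_one_iff_commute.1 (hf (by rw [e, map_one])))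

/-- the restriction twisted by a linear character -/
noncomputable def Four_tw (ρ : Representation ℂ G V) (B : Subgroup G) (κ : B →* ℂˣ) :
    Representation ℂ B V where
  toFun y := (κ y : ℂ) • ρ y
  map_one' := by simp
  map_mul' y z := by
    simp only [map_mul, Units.val_mul, Subgroup.coe_mul, smul_mul_smul_comm]

theorem four_cd [Finite G] [FiniteDimensional ℂ V] {ρ : Representation ℂ G V} (hi : Irr ρ)
    (hf : Function.Injective ρ) (hV : finrank ℂ V = 2) (B : Subgroup G) (hB : B.index = 2)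
    (κ : B →* ℂˣ) (x : B) (hx : (x : G) ∈ commutator G) (hκ : κ x ^ 2 ≠ 1) (a b : B)
    (hab : ¬ Commute (a : G) b) : 4 ∈ cd G := by
  have hn : B.Normal := Subgroup.normal_of_index_eq_two hB
  have key := ind B (Four_tw ρ B κ) (fun d => d = 0 ∨ (3 ≤ d ∧ d ∈ cd G) ∨ 6 ≤ d) (Or.inl rfl)
    (by
      rintro s t (rfl | hs) ht
      · rwa [zero_add]
      rcases ht with rfl | ht
      · exact Or.inr hs
      · exact Or.inr (Or.inr (by omega))) ?_
  · rw [hB, hV] at key
    rcases key with h | h | h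
    · omega
    · exact h.2
    · omega
  intro V' _ _ _ ρ' hi' φ hφ hc
  have hc' : ∀ (y : B) v, φ (ρ' y v) = (κ y : ℂ) • ρ y (φ v) := hc
  refine Or.inr (Or.inl ⟨?_, V', _, _, inferInstance, ρ', hi', rfl⟩)
  have h1 : 2 ≤ finrank ℂ (LinearMap.range φ) := by
    by_contra hlt
    obtain ⟨w, hw⟩ := finrank_le_one_iff.1 (show finrank ℂ (LinearMap.range φ) ≤ 1 by omega)
    have hw0 : (w : V) ≠ 0 := by
      intro e
      apply hφ
      ext v
      obtain ⟨c, hc⟩ := hw ⟨φ v, v, rfl⟩
      have := congrArg Subtype.val hc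
      simpa [e] using this.symm
    refine hab (Four_line hi hf B hw0 (fun y hy => ?_) a.2 b.2)
    obtain ⟨v, hv⟩ := w.2
    obtain ⟨c, hc⟩ := hw ⟨φ (ρ' y v), _, rfl⟩
    have e : c • (w : V) = (κ ⟨y, hy⟩ : ℂ) • ρ y w := by
      rw [← hv, ← hc' ⟨y, hy⟩ v, hv]
      exact congrArg Subtype.val hc
    refine ⟨(κ ⟨y, hy⟩ : ℂ)⁻¹ * c, ?_⟩
    rw [mul_smul, e, smul_smul, inv_mul_cancel₀ (Units.ne_zero _), one_smul]
  have h2 := LinearMap.finrank_range_le φ
  by_contra hlt
  have h3 : finrank ℂ V' = finrank ℂ V := by omega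
  have hs : Function.Surjective φ := by
    rw [← LinearMap.range_eq_top]
    apply Submodule.eq_top_of_finrank_eq
    have := Submodule.finrank_le (LinearMap.range φ)
    omega
  let e : V' ≃ₗ[ℂ] V := LinearEquiv.ofBijective φ
    ⟨(LinearMap.injective_iff_surjective_of_finrank_eq_finrank h3).2 hs, hs⟩
  have he : (e : V' →ₗ[ℂ] V) ∘ₗ ρ' x ∘ₗ (e.symm : V →ₗ[ℂ] V') = (κ x : ℂ) • ρ x := by
    ext v
    have : φ (e.symm v) = v := e.apply_symm_apply v
    change φ (ρ' x (e.symm v)) = (κ x : ℂ) • ρ x v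
    rw [hc', this]
  have hd := LinearMap.det_conj (ρ' x) e
  rw [he, LinearMap.det_smul, det_commutator ρ x hx, det_commutator ρ' x hx, hV, mul_one] at hd
  exact hκ (Units.ext (by simpa using hd))

end Pool.Agent.MP_f0649b_al
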