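import Pool.Agent.MP_f0649b_al.Defs

/-! A supplement of the second derived subgroup. -/

namespace Pool.Agent.MP_f0649b_al

variable {G : Type} [Group G]

theorem Frat_prime {K : Type} [Group K] [Finite K] {p : ℕ} [Fact p.Prime] (h : ¬ IsPGroup p K) :
    ∃ q : ℕ, q.Prime ∧ q ≠ p ∧ q ∣ Nat.card K := by
  by_contra hq
  apply h
  rw [IsPGroup.iff_card]
  refine ⟨_, Nat.eq_prime_pow_of_unique_prime_dvd Nat.card_pos.ne' (fun {d} hd hd' => ?_)⟩
  by_contra e
  exact hq ⟨d, hd, e, hd'⟩

theorem Frat_ne_bot [Finite G] {N : Subgroup G} {q : ℕ} [Fact q.Prime] (h : q ∣ Nat.card N)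
    (Q : Sylow q N) : (Q : Subgroup N).map N.subtype ≠ ⊥ := by
  intro e
  rw [Subgroup.map_eq_bot_iff_of_injective _ N.subtype_injective] at e
  exact Q.ne_bot_of_dvd_card h e

theorem mono_p [Finite G] (hG : Mono G) (N : Subgroup G) [N.Normal] (hN : Group.IsNilpotent N) :
    ∃ p : ℕ, p.Prime ∧ IsPGroup p N := by
  by_contra h
  have h' : ∀ p : ℕ, p.Prime → ¬ IsPGroup p N := fun p hp e => h ⟨p, hp, e⟩
  obtain ⟨q, hq, -, hq'⟩ := Frat_prime (h' 2 Nat.prime_two)
  have : Fact q.Prime := ⟨hq⟩
  obtain ⟨r, hr, hrq, hr'⟩ := Frat_prime (h' q hq)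
  have : Fact r.Prime := ⟨hr⟩
  obtain ⟨Q⟩ : Nonempty (Sylow q N) := inferInstance
  obtain ⟨R⟩ : Nonempty (Sylow r N) := inferInstance
  have nQ : (Q : Subgroup N).Normal :=
    Sylow.normal_of_normalizerCondition Group.normalizerCondition_of_isNilpotent Q
  have nR : (R : Subgroup N).Normal :=
    Sylow.normal_of_normalizerCondition Group.normalizerCondition_of_isNilpotent R
  have cQ := Q.characteristic_of_normal nQ
  have cR := R.characteristic_of_normal nR
  have hd := IsPGroup.disjoint_of_ne r q hrq _ _ (R.isPGroup'.map N.subtype)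
    (Q.isPGroup'.map N.subtype)
  rcases hG _ _ inferInstance inferInstance hd.eq_bot with e | e
  · exact Frat_ne_bot hr' R e
  · exact Frat_ne_bot hq' Q e

theorem frat [Finite G] (hG : Mono G) {p : ℕ} [Fact p.Prime] (hN : IsPGroup p (derivedSeries G 2))
    (h0 : derivedSeries G 2 ≠ ⊥) (hD : ¬ IsPGroup p (commutator G)) :
    ∃ H : Subgroup G, H ≠ ⊤ ∧ derivedSeries G 2 ⊔ H = ⊤ := by
  obtain ⟨q, hq, hqp, hq'⟩ := Frat_prime hD
  have : Fact q.Prime := ⟨hq⟩
  obtain ⟨Q⟩ : Nonempty (Sylow q (commutator G)) := inferInstance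
  refine ⟨Subgroup.normalizer ((Q : Subgroup (commutator G)).map (commutator G).subtype), ?_, ?_⟩
  · intro e
    have nQ := Subgroup.normalizer_eq_top_iff.1 e
    have hd := IsPGroup.disjoint_of_ne q p hqp _ _ (Q.isPGroup'.map (commutator G).subtype) hN
    rcases hG _ _ nQ inferInstance hd.eq_bot with e | e
    · exact Frat_ne_bot hq' Q e
    · exact h0 e
  · have h1 := Sylow.normalizer_sup_eq_top Q
    have h2 : commutator (commutator G) ≤
        (derivedSeries G 2).subgroupOf (commutator G) ⊔ (Q : Subgroup (commutator G)) := by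
      refine le_trans ?_ le_sup_left
      refine Subgroup.commutator_le.2 (fun a _ b _ => ?_)
      rw [Subgroup.mem_subgroupOf]
      exact Subgroup.commutator_mem_commutator a.2 b.2
    have nY := Subgroup.Normal.of_commutator_le _ h2
    have h3 := Sylow.normalizer_sup_eq_top' Q (le_sup_right : (Q : Subgroup (commutator G)) ≤
      (derivedSeries G 2).subgroupOf (commutator G) ⊔ (Q : Subgroup (commutator G)))
    have h4 := congrArg (Subgroup.map (commutator G).subtype) h3
    rw [← MonoidHom.range_eq_map, Subgroup.range_subtype, Subgroup.map_sup, Subgroup.map_sup] at h4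
    rw [eq_top_iff, ← h1]
    refine sup_le le_sup_right (h4.ge.trans (sup_le ?_ (sup_le ?_ ?_)))
    · exact (Subgroup.le_normalizer_map _).trans le_sup_right
    · exact (Subgroup.map_comap_le _ _).trans le_sup_left
    · exact Subgroup.le_normalizer.trans le_sup_right

end Pool.Agent.MP_f0649b_al
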