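import Pool.Agent.MP_f0649b_al.Dec
import Pool.Agent.MP_f0649b_al.Eig

/-! Simultaneous eigenspaces, and reduction to a primitive representation. -/

open Module

namespace Pool.Agent.MP_f0649b_al

variable {G : Type} [Group G] {V W : Type} [AddCommGroup V] [Module ℂ V] [AddCommGroup W]
  [Module ℂ W]

/-- the sum of the translates of a subspace by coset representatives -/
noncomputable def Prim_sum (ρ : Representation ℂ G V) (H : Subgroup G) [Fintype (G ⧸ H)]
    (U : Submodule ℂ V) : (G ⧸ H → U) →ₗ[ℂ] V :=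
  ∑ c : G ⧸ H, (ρ c.out) ∘ₗ U.subtype ∘ₗ LinearMap.proj c

theorem Prim_sum_apply (ρ : Representation ℂ G V) (H : Subgroup G) [Fintype (G ⧸ H)]
    (U : Submodule ℂ V) (f : G ⧸ H → U) : Prim_sum ρ H U f = ∑ c : G ⧸ H, ρ c.out (f c) := by
  simp [Prim_sum]

theorem Prim_dim [FiniteDimensional ℂ V] (H : Subgroup G) [Fintype (G ⧸ H)] (U : Submodule ℂ V) :
    finrank ℂ (G ⧸ H → U) = H.index * finrank ℂ U := by
  rw [Module.finrank_pi_fintype, Finset.sum_const, smul_eq_mul, Finset.card_univ,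
    Subgroup.index_eq_card, Nat.card_eq_fintype_card]

theorem Prim_lower [Finite G] [FiniteDimensional ℂ V] {ρ : Representation ℂ G V} (hρ : Irr ρ)
    (H : Subgroup G) (U : Submodule ℂ V) (h0 : U ≠ ⊥) (hU : ∀ h ∈ H, ∀ v ∈ U, ρ h v ∈ U) :
    finrank ℂ V ≤ H.index * finrank ℂ U := by
  classical
  have := Fintype.ofFinite (G ⧸ H)
  have h1 : ∀ x : G, ∀ w ∈ U, ρ x w ∈ LinearMap.range (Prim_sum ρ H U) := by
    intro x w hw
    obtain ⟨h, hh⟩ := QuotientGroup.mk_out_eq_mul H x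
    refine ⟨Pi.single (x : G ⧸ H) ⟨ρ (h⁻¹ : H) w, hU _ (h⁻¹ : H).2 w hw⟩, ?_⟩
    rw [Prim_sum_apply, Finset.sum_eq_single (x : G ⧸ H) (fun b _ hb => by simp [hb]) (by simp),
      Pi.single_eq_same, hh, ← Module.End.mul_apply, ← map_mul]
    simp
  have h2 : LinearMap.range (Prim_sum ρ H U) = ⊤ := by
    refine (hρ.2 _ ?_).resolve_left fun h => h0 ?_
    · rintro g _ ⟨f, rfl⟩
      rw [Prim_sum_apply, map_sum]
      refine Submodule.sum_mem _ fun c _ => ?_
      rw [← Module.End.mul_apply, ← map_mul]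
      exact h1 _ _ (f c).2
    · rw [eq_bot_iff]
      intro w hw
      have := h1 1 w hw
      rwa [h, map_one] at this
  rw [← Prim_dim, ← finrank_top ℂ V, ← h2]
  exact LinearMap.finrank_range_le _

/-- the weight space -/
def Prim_wt (ρ : Representation ℂ G V) (A : Subgroup G) (χ : A → ℂ) : Submodule ℂ V :=
  ⨅ a : A, Module.End.eigenspace (ρ a) (χ a)

theorem Prim_mem {ρ : Representation ℂ G V} {A : Subgroup G} {χ : A → ℂ} {v : V} :
    v ∈ Prim_wt ρ A χ ↔ ∀ a : A, ρ a v = χ a • v := by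
  simp [Prim_wt]

/-- the conjugate weight -/
def Prim_cj (A : Subgroup G) [hA : A.Normal] (χ : A → ℂ) (g : G) (a : A) : ℂ :=
  χ ⟨g⁻¹ * a * g, hA.conj_mem' _ a.2 g⟩

theorem Prim_cj_mul (A : Subgroup G) [A.Normal] (χ : A → ℂ) (g h : G) :
    Prim_cj A χ (g * h) = Prim_cj A (Prim_cj A χ h) g := by
  funext a
  simp [Prim_cj, mul_assoc]

theorem Prim_cj_one (A : Subgroup G) [A.Normal] (χ : A → ℂ) : Prim_cj A χ 1 = χ := by
  funext a
  simp [Prim_cj]

theorem Prim_move {ρ : Representation ℂ G V} {A : Subgroup G} [A.Normal] {χ : A → ℂ} {v : V}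
    (hv : v ∈ Prim_wt ρ A χ) (g : G) : ρ g v ∈ Prim_wt ρ A (Prim_cj A χ g) := by
  rw [Prim_mem] at hv ⊢
  intro a
  rw [← map_smul, Prim_cj, ← hv, ← Module.End.mul_apply, ← Module.End.mul_apply, ← map_mul,
    ← map_mul]
  simp [mul_assoc]

/-- the stabiliser of a weight -/
def Prim_st (A : Subgroup G) [A.Normal] (χ : A → ℂ) : Subgroup G where
  carrier := {g | Prim_cj A χ g = χ}
  one_mem' := Prim_cj_one A χ
  mul_mem' := by
    intro g h hg hh
    change Prim_cj A χ _ = χ at hg hh ⊢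
    rw [Prim_cj_mul, hh, hg]
  inv_mem' := by
    intro g hg
    change Prim_cj A χ _ = χ at hg ⊢
    conv_lhs => rw [← hg]
    rw [← Prim_cj_mul, inv_mul_cancel, Prim_cj_one]

theorem Prim_upper [Finite G] [FiniteDimensional ℂ V] (ρ : Representation ℂ G V) (A : Subgroup G)
    [A.Normal] (χ : A → ℂ) :
    (Prim_st A χ).index * finrank ℂ (Prim_wt ρ A χ) ≤ finrank ℂ V := by
  classical
  have := Fintype.ofFinite (G ⧸ Prim_st A χ)
  have h1 : Function.Injective fun c : G ⧸ Prim_st A χ => Prim_cj A χ c.out := by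
    intro c d h
    rw [← c.out_eq', ← d.out_eq', QuotientGroup.eq]
    change Prim_cj A χ _ = χ
    change Prim_cj A χ _ = Prim_cj A χ _ at h
    rw [Prim_cj_mul, ← h, ← Prim_cj_mul, inv_mul_cancel, Prim_cj_one]
  have h2 := (iSupIndep_iff_finsetSum_eq_zero_imp_eq_zero _).1
    ((eig_indep fun a : A => ρ a).comp h1)
  rw [← Prim_dim]
  refine LinearMap.finrank_le_finrank_of_injective (f := Prim_sum ρ _ _) ?_
  rw [injective_iff_map_eq_zero]
  intro f hf
  rw [Prim_sum_apply] at hf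
  funext c
  have h3 := h2 Finset.univ _ (fun c _ => Prim_move (f c).2 c.out) hf c (Finset.mem_univ c)
  have h4 := congrArg (ρ c.out⁻¹) h3
  rw [← Module.End.mul_apply, ← map_mul, inv_mul_cancel, map_one, map_zero] at h4
  exact Subtype.ext h4

theorem Prim_eig [Finite G] [FiniteDimensional ℂ V] [Nontrivial V] (ρ : Representation ℂ G V)
    (A : Subgroup G) (h : ∀ x ∈ A, ∀ y ∈ A, Commute (ρ x) (ρ y)) :
    ∃ χ : A → ℂ, Prim_wt ρ A χ ≠ ⊥ := by
  refine (dec (ρ.comp A.subtype) (fun n => n = 0 ∨ ∃ χ : A → ℂ, Prim_wt ρ A χ ≠ ⊥) (Or.inl rfl)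
    ?_ ?_).resolve_left Module.finrank_pos.ne'
  · rintro a b (ha | ha) (hb | hb)
    · exact Or.inl (by omega)
    · exact Or.inr hb
    · exact Or.inr ha
    · exact Or.inr ha
  · intro V' _ _ _ ρ' hi ι hι hc
    have h1 := dim_one_of_comm hi fun x y => LinearMap.ext fun v => hι (by
      rw [Module.End.mul_apply, Module.End.mul_apply, hc, hc, hc, hc]
      exact LinearMap.congr_fun (h x x.2 y y.2) (ι v))
    obtain ⟨v, hv, h2⟩ := finrank_eq_one_iff'.1 h1
    choose c hcv using h2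
    refine Or.inr ⟨fun a => c (ρ' a v), (Submodule.ne_bot_iff _).2 ⟨ι v, Prim_mem.2 fun a => ?_,
      fun h0 => hv (hι (by rw [h0, map_zero]))⟩⟩
    rw [← map_smul, hcv, hc]
    rfl

theorem prim [Finite G] [FiniteDimensional ℂ V] {ρ : Representation ℂ G V} (hρ : Irr ρ) :
    ∃ (H : Subgroup G) (W : Type) (_ : AddCommGroup W) (_ : Module ℂ W)
      (_ : FiniteDimensional ℂ W) (σ : Representation ℂ H W), Irr σ ∧ QPrim σ ∧
      H.index * finrank ℂ W = finrank ℂ V ∧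
      ∀ K : Subgroup G, K.Normal → K ≤ H → (∀ x : H, (x : G) ∈ K → σ x = 1) →
        ∀ x ∈ K, ρ x = 1 := by
  have := hρ.1
  obtain ⟨⟨H, U⟩, ⟨h0, hU, hle⟩, hmin⟩ := exists_minimalFor_of_wellFoundedLT
    (fun p : Subgroup G × Submodule ℂ V => p.2 ≠ ⊥ ∧ (∀ h ∈ p.1, ∀ v ∈ p.2, ρ h v ∈ p.2) ∧
      p.1.index * finrank ℂ p.2 ≤ finrank ℂ V) Prod.fst
    ⟨(⊤, ⊤), top_ne_bot, fun _ _ _ _ => trivial, by simp⟩
  dsimp only at h0 hU hle
  let σ : Representation ℂ H U :=
    Representation.subrepresentation (ρ.comp H.subtype) U fun g v hv => hU g g.2 v hv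
  have hσ : ∀ (g : H) (v : U), (σ g v : V) = ρ g v := fun _ _ => rfl
  have hb : ∀ U' : Submodule ℂ U, U' ≠ ⊥ → U'.map U.subtype ≠ ⊥ := fun U' h e =>
    h (Submodule.map_injective_of_injective U.injective_subtype (e.trans (Submodule.map_bot _).symm))
  have hnt : Nontrivial U := Submodule.nontrivial_iff_ne_bot.2 h0
  have hirr : Irr σ := by
    refine ⟨hnt, fun U' hU' => or_iff_not_imp_left.2 fun h => ?_⟩
    have h1 := Prim_lower hρ H _ (hb U' h) (by
      rintro g hg _ ⟨v, hv, rfl⟩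
      exact ⟨σ ⟨g, hg⟩ v, hU' _ v hv, rfl⟩)
    rw [Submodule.finrank_map_subtype_eq] at h1
    exact Submodule.eq_top_of_finrank_eq (le_antisymm U'.finrank_le
      (Nat.le_of_mul_le_mul_left (hle.trans h1) (Nat.pos_of_ne_zero H.index_ne_zero_of_finite)))
  refine ⟨H, U, inferInstance, inferInstance, inferInstance, σ, hirr, fun A hA hc x hx => ?_,
    le_antisymm hle (Prim_lower hρ H U h0 hU), fun K hK hKH h1 => ?_⟩
  · obtain ⟨χ, hχ⟩ := Prim_eig σ A hc
    have h1 : ∀ g ∈ Prim_st A χ, ∀ v ∈ Prim_wt σ A χ, σ g v ∈ Prim_wt σ A χ := fun g hg v hv => by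
      have := Prim_move hv g
      rwa [show Prim_cj A χ g = χ from hg] at this
    have h2 : H ≤ (Prim_st A χ).map H.subtype :=
      hmin (j := ((Prim_st A χ).map H.subtype, (Prim_wt σ A χ).map U.subtype))
        ⟨hb _ hχ, by
          rintro _ ⟨g, hg, rfl⟩ _ ⟨v, hv, rfl⟩
          exact ⟨σ g v, h1 g hg v hv, rfl⟩, by
          rw [Subgroup.index_map_subtype, Submodule.finrank_map_subtype_eq, mul_right_comm,
            mul_comm]
          exact (Nat.mul_le_mul_left _ (Prim_upper σ A χ)).trans hle⟩ (Subgroup.map_subtype_le _)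
    have h3 : Prim_wt σ A χ = ⊤ := (hirr.2 _ fun g => h1 g (by
      obtain ⟨g', hg', e⟩ := h2 g.2
      rwa [← show g' = g from Subtype.ext e])).resolve_left hχ
    refine ⟨χ ⟨x, hx⟩, LinearMap.ext fun v => ?_⟩
    exact Prim_mem.1 (h3 ▸ Submodule.mem_top : v ∈ Prim_wt σ A χ) ⟨x, hx⟩
  · by_contra hne
    push Not at hne
    obtain ⟨w, hw, hw0⟩ := (Submodule.ne_bot_iff _).1 h0
    refine hw0 (fix_normal hρ K hne w fun x hx => ?_)
    rw [← hσ ⟨x, hKH hx⟩ ⟨w, hw⟩, h1 ⟨x, hKH hx⟩ hx]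
    rfl

end Pool.Agent.MP_f0649b_al
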