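import Pool.Agent.MP_f0649b_al.Lin
import Pool.Agent.MP_f0649b_al.Quo
import Pool.Agent.MP_f0649b_al.Prim

/-! The `p`-parts of degrees along the derived series of a normal `p`-subgroup. -/

open Module

namespace Pool.Agent.MP_f0649b_al

variable {G : Type} [Group G] {V W : Type} [AddCommGroup V] [Module ℂ V] [AddCommGroup W]
  [Module ℂ W]

theorem IK_map_comm {K H : Subgroup G} (h : K ≤ H) :
    ⁅K.subgroupOf H, K.subgroupOf H⁆.map H.subtype = ⁅K, K⁆ := by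
  rw [Subgroup.map_commutator, Subgroup.map_subgroupOf_eq_of_le h]

theorem IK_mem_comm {K H : Subgroup G} (h : K ≤ H) {x : H} (hx : (x : G) ∈ ⁅K, K⁆) :
    x ∈ ⁅K.subgroupOf H, K.subgroupOf H⁆ := by
  rw [← IK_map_comm h] at hx
  obtain ⟨y, hy, hxy⟩ := hx
  rwa [show y = x from Subtype.ext hxy] at hy

theorem taketa [Finite G] {p : ℕ} [Fact p.Prime] (hG : IsPGroup p G) (K : Subgroup G) [K.Normal]
    {c : ℕ} (h : Dg ⁅K, K⁆ c) : ∃ d, d < c ∧ Dg K d := by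
  obtain ⟨V, _, _, _, ρ, hρ, hc, x, hx, hx1⟩ := h
  obtain ⟨H, W, _, _, _, σ, hσ, hq, hd, hl⟩ := prim hρ
  have h1 : finrank ℂ W = 1 := dim_one_of_nilpotent hσ hq (hG.to_subgroup H).isNilpotent
  rw [h1, mul_one, hc] at hd
  have h2 : ¬ K ≤ H := by
    intro hKH
    refine hx1 (hl ⁅K, K⁆ inferInstance ((Subgroup.commutator_le_left K K).trans hKH) ?_ x hx)
    intro y hy
    exact triv_of_dim_one σ h1 y (Subgroup.commutator_mono le_top le_top (IK_mem_comm hKH hy))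
  obtain ⟨y, hyK, hyH⟩ := SetLike.not_le_iff_exists.1 h2
  obtain ⟨V', _, _, _, ρ', hd', hk, -⟩ := perm H
  obtain ⟨d, hd1, hd2⟩ := dec_ne ρ' K ⟨y, hyK, fun h => hyH (hk y h)⟩
  exact ⟨d, by omega, hd2⟩

theorem cd_pgroup [Finite G] {p : ℕ} [Fact p.Prime] (hG : IsPGroup p G) {c : ℕ} (h : c ∈ cd G) :
    ∃ a, c = p ^ a := by
  obtain ⟨V, _, _, _, ρ, hρ, hc⟩ := h
  obtain ⟨H, W, _, _, _, σ, hσ, hq, hd, -⟩ := prim hρ
  have h1 : finrank ℂ W = 1 := dim_one_of_nilpotent hσ hq (hG.to_subgroup H).isNilpotent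
  rw [h1, mul_one, hc] at hd
  rw [← hd]
  exact hG.index H

theorem ik [Finite G] {p : ℕ} [Fact p.Prime] (K : Subgroup G) [K.Normal] (hK : IsPGroup p K)
    {c : ℕ} (h : Dg ⁅K, K⁆ c) : ∃ d, Dg K d ∧ padicValNat p d < padicValNat p c := by
  have hp : p.Prime := Fact.out
  obtain ⟨V, _, _, _, ρ, hρ, hc, hx⟩ := h
  obtain ⟨S, hS⟩ := hK.exists_le_sylow
  have hc0 : c ≠ 0 := hc ▸ (dim_pos hρ).ne'
  have h1 := dec (G := (S : Subgroup G)) (V := V) (ρ.comp (S : Subgroup G).subtype)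
    (fun d => p ^ (padicValNat p c + 1) ∣ d ∨ ∃ a, a ≤ padicValNat p c ∧
      Dg ⁅K.subgroupOf (S : Subgroup G), K.subgroupOf (S : Subgroup G)⁆ (p ^ a))
    (Or.inl (dvd_zero _))
    (fun a b ha hb => ha.elim (fun ha => hb.elim (fun hb => Or.inl (dvd_add ha hb)) Or.inr) Or.inr)
    (by
      intro V' _ _ _ ρ' hρ' ι hι hc'
      obtain ⟨a, ha⟩ := cd_pgroup S.isPGroup' (c := finrank ℂ V') ⟨V', _, _, inferInstance, ρ', hρ', rfl⟩
      rcases le_or_gt a (padicValNat p c) with h | h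
      · refine Or.inr ⟨a, h, V', _, _, inferInstance, ρ', hρ', ha, ?_⟩
        by_contra hcon
        push Not at hcon
        have := hρ'.1
        obtain ⟨v, hv⟩ := exists_ne (0 : V')
        refine hv (hι ?_)
        rw [map_zero]
        refine fix_normal hρ ⁅K, K⁆ hx _ fun y hy => ?_
        have hyS : y ∈ (S : Subgroup G) := hS (Subgroup.commutator_le_left K K hy)
        have h2 := hc' ⟨y, hyS⟩ v
        rw [hcon ⟨y, hyS⟩ (IK_mem_comm hS hy)] at h2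
        exact h2.symm
      · exact Or.inl (ha ▸ pow_dvd_pow p h))
  rw [hc] at h1
  obtain ⟨a, ha, h2⟩ := h1.resolve_left (pow_succ_padicValNat_not_dvd hc0)
  obtain ⟨d, hd, h3⟩ := taketa S.isPGroup' _ h2
  obtain ⟨b, rfl⟩ := cd_pgroup S.isPGroup' h3.mem_cd
  have hb : b < a := (Nat.pow_lt_pow_iff_right hp.one_lt).1 hd
  obtain ⟨W, _, _, _, σ, hσ, hW, y, hy, hy1⟩ := h3
  have h4 := ind (S : Subgroup G) σ
    (fun d => p ^ (b + 1) ∣ d ∨ ∃ d, Dg K d ∧ padicValNat p d < padicValNat p c)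
    (Or.inl (dvd_zero _))
    (fun a b ha hb => ha.elim (fun ha => hb.elim (fun hb => Or.inl (dvd_add ha hb)) Or.inr) Or.inr)
    (by
      intro V' _ _ _ ρ' hρ' φ hφ hc'
      by_cases h : p ^ (b + 1) ∣ finrank ℂ V'
      · exact Or.inl h
      · refine Or.inr ⟨finrank ℂ V', ⟨V', _, _, inferInstance, ρ', hρ', rfl, y, hy,
          ne_one_of_over hσ hφ hc' y hy1⟩, ?_⟩
        rw [padicValNat_dvd_iff_le (dim_pos hρ').ne'] at h
        omega)
  refine h4.resolve_left fun h5 => S.not_dvd_index ?_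
  rw [hW, pow_succ'] at h5
  exact Nat.dvd_of_mul_dvd_mul_right (pow_pos hp.pos b) h5

end Pool.Agent.MP_f0649b_al
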