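import Pool.Agent.MP_f0649b_al.Defs

/-! Irreducible linear groups over the prime field. -/

open Module

namespace Pool.Agent.MP_f0649b_al

variable {S U : Type} [Group S] [AddCommGroup U]

theorem lg_p {p : ℕ} [Fact p.Prime] [Module (ZMod p) U] [Finite S] [Finite U]
    {τ : Representation (ZMod p) S U} (hτ : Irr τ) (K : Subgroup S) [K.Normal]
    (hK : IsPGroup p K) : ∀ x ∈ K, τ x = 1 := by
  let _ : MulAction K U :=
    { smul := fun k u => τ k u
      one_smul := fun u => by
        show τ ((1 : K) : S) u = u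
        simp
      mul_smul := fun a b u => by
        show τ ((a * b : K) : S) u = τ a (τ b u)
        simp }
  have := hτ.1
  obtain ⟨u, hu⟩ := exists_ne (0 : U)
  have h1 : addOrderOf u = p := by
    refine addOrderOf_eq_prime ?_ hu
    rw [← Nat.cast_smul_eq_nsmul (ZMod p), ZMod.natCast_self, zero_smul]
  have h2 : p ∣ Nat.card U := h1 ▸ addOrderOf_dvd_natCard u
  have h0 : (0 : U) ∈ MulAction.fixedPoints K U := fun k => map_zero (τ k)
  obtain ⟨b, hb, hb0⟩ := hK.exists_fixed_point_of_prime_dvd_card_of_fixed_point U h2 h0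
  let W : Submodule (ZMod p) U :=
    { carrier := {v | ∀ x ∈ K, τ x v = v}
      zero_mem' := fun x _ => map_zero _
      add_mem' := fun {a b} ha hb x hx => by rw [map_add, ha x hx, hb x hx]
      smul_mem' := fun c a ha x hx => by rw [map_smul, ha x hx] }
  have hW : ∀ g, ∀ v ∈ W, τ g v ∈ W := by
    intro g v hv x hx
    have h3 : g⁻¹ * x * g⁻¹⁻¹ ∈ K := Subgroup.Normal.conj_mem inferInstance x hx g⁻¹
    have h4 : x * g = g * (g⁻¹ * x * g⁻¹⁻¹) := by group
    rw [← Module.End.mul_apply, ← map_mul, h4, map_mul, Module.End.mul_apply, hv _ h3]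
  have hbW : b ∈ W := fun x hx => hb ⟨x, hx⟩
  rcases hτ.2 W hW with h | h
  · rw [h, Submodule.mem_bot] at hbW
    exact absurd hbW.symm hb0
  · intro x hx
    ext v
    have hv : v ∈ W := h ▸ Submodule.mem_top
    exact hv x hx

theorem exists_B [Finite S] (h : ∀ x ∈ commutator S, ∀ y ∈ commutator S, Commute x y) :
    ∃ B : Subgroup S, commutator S ≤ B ∧ (∀ x ∈ B, ∀ y ∈ B, Commute x y) ∧
      ∀ g, (∀ y ∈ B, Commute g y) → g ∈ B := by
  obtain ⟨B, hle, hB⟩ := Finite.exists_le_maximal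
    (p := fun B : Subgroup S => ∀ x ∈ B, ∀ y ∈ B, Commute x y) h
  refine ⟨B, hle, hB.1, fun g hg => ?_⟩
  have h1 : insert g (B : Set S) ⊆ Subgroup.centralizer (insert g (B : Set S)) := by
    rintro x (rfl | hx) y (rfl | hy)
    · rfl
    · exact (hg y hy).eq.symm
    · exact (hg x hx).eq
    · exact (hB.1 y hy x hx).eq
  have h2 : insert g (B : Set S) ⊆ Subgroup.centralizer
      (Subgroup.centralizer (insert g (B : Set S)) : Set S) :=
    fun x hx y hy => (hy x hx).symm
  have h3 : ∀ x ∈ Subgroup.centralizer (Subgroup.centralizer (insert g (B : Set S)) : Set S),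
      ∀ y ∈ Subgroup.centralizer (Subgroup.centralizer (insert g (B : Set S)) : Set S),
        Commute x y :=
    fun x hx y hy => (hx y fun z hz => hy z (h1 hz)).symm
  exact hB.2 h3 (fun x hx => h2 (Set.mem_insert_of_mem _ hx)) (h2 (Set.mem_insert _ _))

theorem coprime_B {p : ℕ} [Fact p.Prime] [Module (ZMod p) U] [Finite S] [Finite U]
    {τ : Representation (ZMod p) S U} (hτ : Irr τ) (hf : Function.Injective τ) (B : Subgroup S)
    [B.Normal] (h2 : ∀ x ∈ B, ∀ y ∈ B, Commute x y) : ¬ p ∣ Nat.card B := by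
  intro hp
  obtain ⟨x, hx⟩ := exists_prime_orderOf_dvd_card' p hp
  let K : Subgroup S :=
    { carrier := {y | y ∈ B ∧ y ^ p = 1}
      one_mem' := ⟨B.one_mem, one_pow _⟩
      mul_mem' := fun {a b} ha hb => ⟨B.mul_mem ha.1 hb.1, by
        rw [(h2 a ha.1 b hb.1).mul_pow, ha.2, hb.2, one_mul]⟩
      inv_mem' := fun {a} ha => ⟨B.inv_mem ha.1, by rw [inv_pow, ha.2, inv_one]⟩ }
  have : K.Normal := ⟨fun y hy g => ⟨Subgroup.Normal.conj_mem inferInstance y hy.1 g, by
    rw [conj_pow, hy.2, mul_one, mul_inv_cancel]⟩⟩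
  have hK : IsPGroup p K := fun y => ⟨1, Subtype.ext (by
    rw [pow_one]
    exact y.2.2)⟩
  have hxK : (x : S) ∈ K := ⟨x.2, by
    rw [← Subgroup.coe_pow, ← hx, pow_orderOf_eq_one, Subgroup.coe_one]⟩
  have h1 : (x : S) = 1 := hf ((lg_p hτ K hK x hxK).trans (map_one τ).symm)
  have h3 : x = 1 := Subtype.ext h1
  rw [h3, orderOf_one] at hx
  exact (Fact.out : p.Prime).ne_one hx.symm

end Pool.Agent.MP_f0649b_al
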