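import Pool.Agent.MP_f0649b_al.Eig

/-! The index of a maximal abelian normal subgroup. -/

open Module

namespace Pool.Agent.MP_f0649b_al

variable {S U : Type} [Group S] [AddCommGroup U]

theorem LGi_eig {K Y B : Type} [Field K] [IsAlgClosed K] [AddCommGroup Y] [Module K Y]
    [FiniteDimensional K Y] [Nontrivial Y] (T : B → Module.End K Y)
    (h : ∀ a b, Commute (T a) (T b)) : ∃ v : Y, v ≠ 0 ∧ ∃ π : B → K, ∀ b, T b v = π b • v := by
  obtain ⟨W, ⟨w1, w2⟩, w3⟩ := (wellFounded_lt (α := Submodule K Y)).has_min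
    {W | W ≠ ⊥ ∧ ∀ b, ∀ w ∈ W, T b w ∈ W} ⟨⊤, top_ne_bot, fun _ _ _ => trivial⟩
  have key : ∀ b, ∃ μ, W ≤ (T b).eigenspace μ := by
    intro b
    have : Nontrivial W := Submodule.nontrivial_iff_ne_bot.2 w1
    obtain ⟨μ, hμ⟩ := Module.End.exists_eigenvalue ((T b).restrict (w2 b))
    obtain ⟨x, hx⟩ := hμ.exists_hasEigenvector
    have hx1 : (x : Y) ∈ (T b).eigenspace μ :=
      Module.End.mem_eigenspace_iff.2 (congrArg Subtype.val hx.apply_eq_smul)
    refine ⟨μ, inf_eq_left.1 (by_contra fun e => w3 (W ⊓ (T b).eigenspace μ) ⟨fun e' => ?_, ?_⟩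
      (lt_of_le_of_ne inf_le_left e))⟩
    · exact hx.2 (Subtype.ext ((Submodule.eq_bot_iff _).1 e' x ⟨x.2, hx1⟩))
    · rintro a w ⟨h1, h2⟩
      refine ⟨w2 a w h1, Module.End.mem_eigenspace_iff.2 ?_⟩
      rw [← Module.End.mul_apply, (h b a).eq, Module.End.mul_apply,
        Module.End.mem_eigenspace_iff.1 h2, map_smul]
  choose π hπ using key
  obtain ⟨v, hv, h0⟩ := Submodule.exists_mem_ne_zero_of_ne_bot w1
  exact ⟨v, h0, π, fun b => Module.End.mem_eigenspace_iff.1 (hπ b hv)⟩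

theorem lg {p : ℕ} [Fact p.Prime] [Module (ZMod p) U] [Finite S] [Finite U]
    {τ : Representation (ZMod p) S U} (hτ : Irr τ) (hf : Function.Injective τ) (B : Subgroup S)
    (h1 : commutator S ≤ B) (h2 : ∀ x ∈ B, ∀ y ∈ B, Commute x y)
    (h3 : ∀ g, (∀ y ∈ B, Commute g y) → g ∈ B) : B.index ≤ finrank (ZMod p) U := by
  classical
  have := hτ.1
  have : Module.Finite (ZMod p) U := Module.Finite.of_finite
  have hB : B.Normal := Subgroup.Normal.of_commutator_le S h1
  let K := AlgebraicClosure (ZMod p)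
  have hY : finrank K (U →ₗ[ZMod p] K) = finrank (ZMod p) U := by
    rw [Module.finrank_linearMap, finrank_self, mul_one]
  have : Nontrivial (U →ₗ[ZMod p] K) :=
    Module.nontrivial_of_finrank_pos (R := K) (by rw [hY]; exact Module.finrank_pos)
  let T : S → Module.End K (U →ₗ[ZMod p] K) := fun g => LinearMap.lcomp K K (τ g)
  have hT : ∀ g f u, T g f u = f (τ g u) := fun _ _ _ => rfl
  have hm : ∀ g h u, τ g (τ h u) = τ (g * h) u := fun g h u => by rw [map_mul]; rfl
  obtain ⟨φ, h0, π, hπ⟩ := LGi_eig (fun b : B => T b) fun a b => by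
    ext f u
    change f (τ b (τ a u)) = f (τ a (τ b u))
    rw [hm, hm, (h2 a a.2 b b.2).eq]
  let cj : S → B → B := fun g b => ⟨g * b * g⁻¹, hB.conj_mem b b.2 g⟩
  have h4 : ∀ g (b : B) u, φ (τ g (τ b u)) = π (cj g b) * φ (τ g u) := fun g b u => by
    have := LinearMap.congr_fun (hπ (cj g b)) (τ g u)
    rw [hT, hm, LinearMap.smul_apply, smul_eq_mul] at this
    rw [← this, hm]
    simp [cj]
  have h5 : ∀ u, (∀ t, φ (τ t u) = 0) → u = 0 := by
    rcases hτ.2 (⨅ t, LinearMap.ker (φ ∘ₗ τ t)) (fun g v hv => by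
      simp only [Submodule.mem_iInf, LinearMap.mem_ker, LinearMap.comp_apply] at hv ⊢
      intro t
      rw [hm]
      exact hv _) with e | e
    · intro u hu
      exact (Submodule.eq_bot_iff _).1 e u ((Submodule.mem_iInf _).2 hu)
    · refine absurd (LinearMap.ext fun u => ?_) h0
      have := (Submodule.mem_iInf _).1 (e.ge (Submodule.mem_top (x := u))) 1
      simpa using this
  have h6 : ∀ s, (∀ b, π (cj s b) = π b) → s ∈ B := by
    intro s hs
    refine h3 s fun b hb => ?_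
    have e : s * b * s⁻¹ = b := hf (LinearMap.ext fun u => sub_eq_zero.1 (h5 _ fun t => by
      have e1 := h4 t (cj s ⟨b, hb⟩) u
      have e2 := h4 t ⟨b, hb⟩ u
      have hc : s⁻¹ * t * s * t⁻¹ ∈ B := h1 (by
        simpa [commutatorElement_def, commutator_def] using
          Subgroup.commutator_mem_commutator (Subgroup.mem_top s⁻¹) (Subgroup.mem_top t))
      have e3 : cj t (cj s ⟨b, hb⟩) = cj s (cj t ⟨b, hb⟩) := Subtype.ext (by
        have e4 := (h2 _ hc _ (hB.conj_mem b hb t)).eq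
        change t * (s * b * s⁻¹) * t⁻¹ = s * (t * b * t⁻¹) * s⁻¹
        calc t * (s * b * s⁻¹) * t⁻¹
            = s * ((s⁻¹ * t * s * t⁻¹) * (t * b * t⁻¹)) * (s⁻¹ * t * s * t⁻¹)⁻¹ * s⁻¹ := by group
          _ = s * (t * b * t⁻¹) * s⁻¹ := by rw [e4]; group)
      rw [e3, hs] at e1
      rw [map_sub, map_sub]
      exact sub_eq_zero.2 (e1.trans e2.symm)))
    exact mul_inv_eq_iff_eq_mul.1 e
  have li := eig_li (fun b : B => T b) (fun (c : S ⧸ B) b => π (cj c.out⁻¹ b)) (fun c d e => by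
      rw [← c.out_eq', ← d.out_eq', QuotientGroup.eq]
      refine h6 _ fun b => ?_
      have e1 := congrFun e (cj d.out b)
      have e2 : cj c.out⁻¹ (cj d.out b) = cj (c.out⁻¹ * d.out) b := Subtype.ext (by
        simp [cj, mul_assoc])
      have e3 : cj d.out⁻¹ (cj d.out b) = b := Subtype.ext (by simp [cj, mul_assoc])
      simpa only [e2, e3] using e1)
    (fun c => T c.out⁻¹ φ) (fun c e => h0 (LinearMap.ext fun u => by
      have := LinearMap.congr_fun e (τ c.out u)
      rw [hT, hm] at this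
      simpa using this))
    fun c b => LinearMap.ext fun u => h4 c.out⁻¹ b u
  have := Fintype.ofFinite (S ⧸ B)
  rw [← hY, Subgroup.index, Nat.card_eq_fintype_card]
  exact li.fintype_card_le_finrank

end Pool.Agent.MP_f0649b_al
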