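import Pool.Agent.MP_f0649b_al.Perm
import Pool.Agent.MP_f0649b_al.Cl
import Pool.Agent.MP_f0649b_al.Mackey

/-! Subgroups of small index, and degrees prime to `p`. -/

open Module

namespace Pool.Agent.MP_f0649b_al

variable {G : Type} [Group G] {V W : Type} [AddCommGroup V] [Module ℂ V] [AddCommGroup W]
  [Module ℂ W]

theorem Lin_comm (H : Subgroup G) {x : H} (hx : x ∈ commutator H) : (x : G) ∈ commutator G := by
  have h1 : (x : G) ∈ (commutator H).map H.subtype := ⟨x, hx, rfl⟩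
  rw [Subgroup.map_subtype_commutator] at h1
  exact Subgroup.commutator_mono le_top le_top h1

theorem Lin_dvd [Finite G] {p : ℕ} [Fact p.Prime] (N H : Subgroup G) [N.Normal]
    (hN : IsPGroup p N) (hH : H ≠ ⊤) (hNH : N ⊔ H = ⊤) : p ∣ H.index := by
  obtain ⟨n, hn⟩ := hN.card_orbit ((1 : G) : G ⧸ H)
  have h1 : MulAction.orbit N ((1 : G) : G ⧸ H) = Set.univ := by
    refine Set.eq_univ_of_forall fun q => ?_
    obtain ⟨g, rfl⟩ := QuotientGroup.mk_surjective q
    have h2 : g ∈ ((N ⊔ H : Subgroup G) : Set G) := by rw [hNH]; trivial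
    rw [Subgroup.normal_mul] at h2
    obtain ⟨a, ha, b, hb, rfl⟩ := h2
    refine ⟨⟨a, ha⟩, ?_⟩
    change ((a * 1 : G) : G ⧸ H) = ((a * b : G) : G ⧸ H)
    rw [QuotientGroup.eq]
    simpa using hb
  rw [h1, Nat.card_congr (Equiv.Set.univ _)] at hn
  have h3 : H.index = p ^ n := hn
  rw [h3]
  refine dvd_pow_self p fun h0 => hH (Subgroup.index_eq_one.1 ?_)
  rw [h3, h0, pow_zero]

theorem exists_dg [Finite G] (K : Subgroup G) (hK : K ≠ ⊥) : ∃ d, Dg K d := by
  obtain ⟨V, _, _, _, ρ, -, h1, -⟩ := perm (⊥ : Subgroup G)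
  obtain ⟨x, hx⟩ := Subgroup.ne_bot_iff_exists_ne_one.1 hK
  obtain ⟨d, -, hd⟩ := dec_ne ρ K ⟨x, x.2, fun h => hx (Subtype.ext (h1 x h))⟩
  exact ⟨d, hd⟩

theorem lin1 [Finite G] {f : ℕ} (hf : MinDeg G f) (H : Subgroup G) (hH : H.index ≤ f) :
    commutator G ≤ H := by
  intro x hx
  by_contra hxH
  obtain ⟨V, _, _, _, ρ, h0, h1, -⟩ := perm H
  obtain ⟨d, h2, hd⟩ := dec_ne ρ (commutator G) ⟨x, hx, fun h => hxH (h1 x h)⟩
  have := hf d hd
  omega

theorem lin2 [Finite G] {f : ℕ} (hf : MinDeg G f) (H : Subgroup G) (hH : H.index < f) :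
    commutator G ≤ ⁅H, H⁆ := by
  intro x hx
  by_contra hxH
  have h1 := lin1 hf H hH.le hx
  have h2 : (⟨x, h1⟩ : H) ∉ commutator H := fun h => hxH (by
    rw [← Subgroup.map_subtype_commutator]
    exact ⟨_, h, rfl⟩)
  obtain ⟨l, hl⟩ := exists_lin h2
  have h3 := ind_lin H l (fun d => d = 0 ∨ f ≤ d) (Or.inl rfl) (fun a b ha hb => by omega)
    (fun V' _ _ _ ρ' hρ φ hφ hc => Or.inr (hf _ ⟨V', _, _, inferInstance, ρ', hρ, rfl, x, hx,
      fun h => hφ (LinearMap.ext fun v => by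
        have h4 := hc ⟨x, h1⟩ v
        rw [h, Module.End.one_apply] at h4
        by_contra h5
        exact hl (Units.ext (mul_right_cancel₀ h5 (h4.symm.trans (one_mul _).symm))))⟩))
  have h4 : H.index ≠ 0 := Subgroup.index_ne_zero_of_finite
  omega

theorem mu0 [Finite G] {p : ℕ} [Fact p.Prime] (N H : Subgroup G) [N.Normal] (hN : IsPGroup p N)
    (hH : H ≠ ⊤) (hNH : N ⊔ H = ⊤) : ∃ c, Dg N c ∧ ¬ p ∣ c := by
  obtain ⟨V, _, _, _, ρ, h0, -, h1⟩ := perm H
  have h2 := Lin_dvd N H hN hH hNH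
  have h3 := dec ρ (fun d => p ∣ d ∨ ∃ c, Dg N c ∧ ¬ p ∣ c) (Or.inl (dvd_zero p))
    (fun a b ha hb => ha.elim (fun ha => hb.imp (dvd_add ha) id) Or.inr)
    (fun V' _ _ _ ρ' hρ ι hι hc => by
      by_cases h : p ∣ finrank ℂ V'
      · exact Or.inl h
      · refine Or.inr ⟨_, ⟨V', _, _, inferInstance, ρ', hρ, rfl, ?_⟩, h⟩
        by_contra h4
        push Not at h4
        have := hρ.1
        obtain ⟨v, hv⟩ := exists_ne (0 : V')
        refine hv (hι ?_)
        rw [map_zero]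
        refine h1 N inferInstance hNH _ fun x hx => ?_
        rw [← hc, h4 x hx, Module.End.one_apply])
  refine h3.resolve_left fun h4 => ?_
  rw [← h0] at h2
  exact (Fact.out : p.Prime).one_lt.ne' (Nat.dvd_one.1 ((Nat.dvd_add_right h4).1 h2))

/-- the minimal degree passes to a subgroup that carries an induced representation -/
theorem mindeg_sub [Finite G] {n e : ℕ} (hf : MinDeg G (n * e)) (H : Subgroup G)
    (hH : H.index = n) : MinDeg H e := by
  rintro d ⟨W, _, _, _, σ, hσ, rfl, x, hx, hx1⟩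
  have h3 := ind H σ (fun d => d = 0 ∨ n * e ≤ d) (Or.inl rfl) (fun a b ha hb => by omega)
    (fun V' _ _ _ ρ' hρ φ hφ hc => Or.inr (hf _ ⟨V', _, _, inferInstance, ρ', hρ, rfl, x,
      Lin_comm H hx, ne_one_of_over hσ hφ hc x hx1⟩))
  have h4 : H.index ≠ 0 := Subgroup.index_ne_zero_of_finite
  rw [hH] at h3 h4
  rcases h3 with h3 | h3
  · exact absurd h3 (mul_ne_zero h4 (dim_pos hσ).ne')
  · exact Nat.le_of_mul_le_mul_left h3 (Nat.pos_of_ne_zero h4)

/-- constituents of a representation induced from a normal subgroup -/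
theorem ind_normal [Finite G] (M : Subgroup G) [M.Normal] {c : ℕ} (hc : c ∈ cd M) (hc1 : c ≠ 1)
    (P : ℕ → Prop) (h0 : P 0) (hadd : ∀ a b, P a → P b → P (a + b))
    (h : ∀ d, Dg (commutator G) d → c ∣ d → P d) : P (M.index * c) := by
  obtain ⟨W, _, _, _, σ, hσ, rfl, x, hx, hx1⟩ := dg_of_cd hc hc1
  exact ind M σ P h0 hadd fun V' _ _ _ ρ' hρ φ hφ he => h _
    ⟨V', _, _, inferInstance, ρ', hρ, rfl, x, Lin_comm M hx, ne_one_of_over hσ hφ he x hx1⟩
    (cl1 hρ M hσ hφ he)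

end Pool.Agent.MP_f0649b_al
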