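import Pool.Agent.MP_f0649b_al.Defs

/-! Orbits on modules over the field with two elements. -/

open Module
open scoped commutatorElement

namespace Pool.Agent.MP_f0649b_al

variable {S U : Type} [Group S] [AddCommGroup U]

theorem Orb_normal (B : Subgroup S) (h1 : commutator S ≤ B) : B.Normal :=
  ⟨fun n hn g => by
    have h : g * n * g⁻¹ = ⁅g, n⁆ * n := by simp [commutatorElement_def]
    rw [h]
    exact B.mul_mem (h1 (Subgroup.commutator_mem_commutator (Subgroup.mem_top g)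
      (Subgroup.mem_top n))) hn⟩

theorem Orb_pow (B : Subgroup S) {a : S} (ha : a ∈ B) : a ^ Nat.card B = 1 := by
  have h := pow_card_eq_one' (G := B) (x := ⟨a, ha⟩)
  exact congrArg Subtype.val h

theorem Orb_sq (B : Subgroup S) (hodd : Odd (Nat.card B)) {a : S} (ha : a ∈ B)
    (h : a = a⁻¹) : a = 1 := by
  obtain ⟨k, hk⟩ := hodd
  have h1 := Orb_pow B ha
  have h2 : a ^ 2 = 1 := by
    rw [sq]
    exact mul_eq_one_iff_eq_inv.2 h
  rwa [hk, pow_succ, pow_mul, h2, one_pow, one_mul] at h1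

theorem Orb_inv (B : Subgroup S) (h1 : commutator S ≤ B)
    (h2 : ∀ x ∈ B, ∀ y ∈ B, Commute x y) (hi : B.index = 4)
    (hH : ∀ H : Subgroup S, H.index = 2 → commutator S ≤ ⁅H, H⁆) {x : S} (hx : x ∉ B)
    (hx2 : x * x ∈ B) : ∀ a ∈ commutator S, x * a * x⁻¹ = a⁻¹ := by
  haveI hN := Orb_normal B h1
  have q1 : (QuotientGroup.mk x : S ⧸ B) ≠ 1 := fun h => hx ((QuotientGroup.eq_one_iff x).1 h)
  have q2 : (QuotientGroup.mk x : S ⧸ B) ^ 2 = 1 := by
    rw [sq, ← QuotientGroup.mk_mul]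
    exact (QuotientGroup.eq_one_iff _).2 hx2
  have q3 : orderOf (QuotientGroup.mk x : S ⧸ B) = 2 := orderOf_eq_prime q2 q1
  let H : Subgroup S := (Subgroup.zpowers (QuotientGroup.mk x : S ⧸ B)).comap
    (QuotientGroup.mk' B)
  have hHi : H.index = 2 := by
    rw [Subgroup.index_comap_of_surjective _ (QuotientGroup.mk'_surjective B)]
    have h := (Subgroup.zpowers (QuotientGroup.mk x : S ⧸ B)).index_mul_card
    rw [Nat.card_zpowers, q3, ← Subgroup.index_eq_card, hi] at h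
    omega
  have hHm : ∀ g ∈ H, g ∈ B ∨ ∃ b ∈ B, g = b * x := by
    intro g hg
    obtain ⟨k, hk⟩ := Subgroup.mem_zpowers_iff.1 (Subgroup.mem_comap.1 hg)
    rw [← zpow_mod_orderOf, q3] at hk
    rcases Int.emod_two_eq_zero_or_one k with h | h
    · left
      rw [Nat.cast_ofNat, h, zpow_zero] at hk
      exact (QuotientGroup.eq_one_iff g).1 hk.symm
    · right
      rw [Nat.cast_ofNat, h, zpow_one] at hk
      have h3 : x⁻¹ * g ∈ B := QuotientGroup.eq.1 hk
      exact ⟨x * (x⁻¹ * g) * x⁻¹, hN.conj_mem _ h3 x, by group⟩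
  let J : Subgroup S :=
    { carrier := {a | a ∈ B ∧ x * a * x⁻¹ = a⁻¹}
      one_mem' := ⟨B.one_mem, by simp⟩
      mul_mem' := by
        rintro a b ⟨ha, ha'⟩ ⟨hb, hb'⟩
        refine ⟨B.mul_mem ha hb, ?_⟩
        rw [(h2 a ha b hb).eq, mul_inv_rev, ← ha', ← hb', ← (h2 a ha b hb).eq]
        group
      inv_mem' := by
        rintro a ⟨ha, ha'⟩
        refine ⟨B.inv_mem ha, ?_⟩
        calc x * a⁻¹ * x⁻¹ = (x * a * x⁻¹)⁻¹ := by group
          _ = a⁻¹⁻¹ := by rw [ha'] }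
  have hK : ∀ d ∈ B, x * d * x⁻¹ * d⁻¹ ∈ J := by
    intro d hd
    refine ⟨B.mul_mem (hN.conj_mem _ hd x) (B.inv_mem hd), ?_⟩
    have h3 : x * x * d = d * (x * x) := (h2 _ hx2 d hd).eq
    calc x * (x * d * x⁻¹ * d⁻¹) * x⁻¹ = (x * x * d) * x⁻¹ * d⁻¹ * x⁻¹ := by group
      _ = (x * d * x⁻¹ * d⁻¹)⁻¹ := by rw [h3]; group
  have hK2 : ∀ b ∈ B, ∀ c ∈ B, ⁅b * x, c⁆ ∈ J := by
    intro b hb c hc
    have h3 : b * (x * c * x⁻¹) = (x * c * x⁻¹) * b := (h2 b hb _ (hN.conj_mem _ hc x)).eq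
    have h4 : ⁅b * x, c⁆ = x * c * x⁻¹ * c⁻¹ := by
      calc ⁅b * x, c⁆ = (b * (x * c * x⁻¹)) * b⁻¹ * c⁻¹ := by
            rw [commutatorElement_def]; group
        _ = _ := by rw [h3]; group
    rw [h4]
    exact hK c hc
  have hJ : ⁅H, H⁆ ≤ J := by
    rw [Subgroup.commutator_le]
    intro g hg h hh
    rcases hHm g hg with hg | ⟨b, hb, rfl⟩ <;> rcases hHm h hh with hh | ⟨c, hc, rfl⟩
    · rw [commutatorElement_eq_one_iff_commute.2 (h2 g hg h hh)]
      exact J.one_mem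
    · rw [← commutatorElement_inv]
      exact J.inv_mem (hK2 c hc g hg)
    · exact hK2 b hb h hh
    · have hd : c * b⁻¹ ∈ B := B.mul_mem hc (B.inv_mem hb)
      have h3 : b * (x * (c * b⁻¹) * x⁻¹) = (x * (c * b⁻¹) * x⁻¹) * b :=
        (h2 b hb _ (hN.conj_mem _ hd x)).eq
      have h4 : ⁅b * x, c * x⁆ = x * (c * b⁻¹) * x⁻¹ * (c * b⁻¹)⁻¹ := by
        calc ⁅b * x, c * x⁆ = (b * (x * (c * b⁻¹) * x⁻¹)) * c⁻¹ := by
              rw [commutatorElement_def]; group
          _ = _ := by rw [h3]; group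
      rw [h4]
      exact hK _ hd
  exact fun a ha => (hJ (hH H hHi ha)).2

theorem Orb_ex (B : Subgroup S) (h1 : commutator S ≤ B)
    (h2 : ∀ x ∈ B, ∀ y ∈ B, Commute x y) (hodd : Odd (Nat.card B)) (hi : B.index = 4)
    (hne : commutator S ≠ ⊥)
    (hH : ∀ H : Subgroup S, H.index = 2 → commutator S ≤ ⁅H, H⁆) : ∃ x : S, x * x ∉ B := by
  by_contra hc
  push Not at hc
  haveI hN := Orb_normal B h1
  haveI : Finite (S ⧸ B) := Nat.finite_of_card_ne_zero (by
    rw [← Subgroup.index_eq_card, hi]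
    norm_num)
  haveI := Fintype.ofFinite (S ⧸ B)
  obtain ⟨p, q, r, hpq, hpr, hqr⟩ := (Fintype.two_lt_card_iff (α := S ⧸ B)).1 (by
    rw [← Nat.card_eq_fintype_card, ← Subgroup.index_eq_card, hi]
    norm_num)
  obtain ⟨p, rfl⟩ := QuotientGroup.mk_surjective p
  obtain ⟨q, rfl⟩ := QuotientGroup.mk_surjective q
  obtain ⟨r, rfl⟩ := QuotientGroup.mk_surjective r
  rw [Ne, QuotientGroup.eq] at hpq hpr hqr
  have hpr' : p⁻¹ * q * (q⁻¹ * r) ∉ B := by
    rwa [show p⁻¹ * q * (q⁻¹ * r) = p⁻¹ * r by group]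
  apply hne
  rw [eq_bot_iff]
  intro a ha
  have e1 := Orb_inv B h1 h2 hi hH hpq (hc _) _ ((commutator S).inv_mem ha)
  have e2 := Orb_inv B h1 h2 hi hH hqr (hc _) a ha
  have e3 := Orb_inv B h1 h2 hi hH hpr' (hc _) a ha
  refine Subgroup.mem_bot.2 (Orb_sq B hodd (h1 ha) ?_)
  rw [← e3]
  calc a = (p⁻¹ * q) * a⁻¹ * (p⁻¹ * q)⁻¹ := by rw [e1, inv_inv]
    _ = (p⁻¹ * q) * ((q⁻¹ * r) * a * (q⁻¹ * r)⁻¹) * (p⁻¹ * q)⁻¹ := by rw [e2]
    _ = _ := by group

theorem Orb_vec [Module (ZMod 2) U] (τ : Representation (ZMod 2) S U) {t : S}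
    (h4 : t * t * (t * t) = 1) (h : ∀ u, τ (t * t) u = u → τ t u = u) : τ t = 1 := by
  have h2 : ∀ v : U, v + v = 0 := fun v => by
    rw [← two_smul (ZMod 2) v, show (2 : ZMod 2) = 0 from rfl, zero_smul]
  have hm : ∀ g g' : S, ∀ v : U, τ (g * g') v = τ g (τ g' v) := fun g g' v => by
    rw [map_mul, Module.End.mul_apply]
  ext v
  have e1 : τ t (τ (t * t) v + v) = τ (t * t) v + v := h _ (by
    rw [map_add, ← hm, h4, map_one, Module.End.one_apply, add_comm])
  have e2 : τ t (τ t v + v) = τ t v + v := h _ (by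
    rw [map_add, ← hm] at e1
    rw [map_add, ← hm, mul_assoc, eq_sub_of_add_eq e1]
    have e3 := h2 (τ (t * t) v)
    have e4 := h2 (τ t v)
    calc τ (t * t) v + v - τ t v + τ (t * t) v
        = (τ (t * t) v + τ (t * t) v) - (τ t v + τ t v) + (τ t v + v) := by abel
      _ = τ t v + v := by rw [e3, e4, sub_self, zero_add])
  rw [map_add, ← hm, add_comm (τ t v) v] at e2
  exact h v (add_right_cancel e2)

theorem orb4 [Module (ZMod 2) U] [Finite S] (τ : Representation (ZMod 2) S U)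
    (hf : Function.Injective τ) (B : Subgroup S) (h1 : commutator S ≤ B)
    (h2 : ∀ x ∈ B, ∀ y ∈ B, Commute x y) (hodd : Odd (Nat.card B)) (hi : B.index = 4)
    (hne : commutator S ≠ ⊥)
    (hH : ∀ H : Subgroup S, H.index = 2 → commutator S ≤ ⁅H, H⁆) :
    ∃ u, (stab τ u).index % 4 = 2 := by
  haveI hN := Orb_normal B h1
  obtain ⟨x, hx⟩ := Orb_ex B h1 h2 hodd hi hne hH
  have hcard : Nat.card S = 4 * Nat.card B := by rw [← B.index_mul_card, hi]
  obtain ⟨j, hj⟩ := id hodd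
  set t := x ^ Nat.card B with ht
  have t4 : t ^ 4 = 1 := by rw [ht, ← pow_mul, mul_comm, ← hcard, pow_card_eq_one']
  have t4' : t * t * (t * t) = 1 := by rw [← t4]; simp only [pow_succ, pow_zero, one_mul, mul_assoc]
  have hs : t * t ∉ B := by
    intro h
    apply hx
    have h3 : x ^ 4 ∈ B := by
      rw [← hi]
      exact B.pow_index_mem x
    have h4 : t * t = (x ^ 4) ^ j * (x * x) := by
      rw [ht, hj]
      group
    rw [h4] at h
    exact (B.mul_mem_cancel_left (B.pow_mem h3 j)).1 h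
  have hinv := Orb_inv B h1 h2 hi hH hs (by rw [t4']; exact B.one_mem)
  obtain ⟨u, hu1, hu2⟩ : ∃ u, τ (t * t) u = u ∧ τ t u ≠ u := by
    by_contra hc
    push Not at hc
    have h3 : t = 1 := hf ((Orb_vec τ t4' hc).trans (map_one τ).symm)
    exact hs (by rw [h3, mul_one]; exact B.one_mem)
  refine ⟨u, ?_⟩
  set H := stab τ u with hHd
  have hsH : t * t ∈ H := hu1
  have o2 : orderOf (t * t) = 2 :=
    orderOf_eq_prime (by rw [sq, t4']) fun h => hs (by rw [h]; exact B.one_mem)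
  obtain ⟨k, hk⟩ : 2 ∣ Nat.card H := o2 ▸ H.orderOf_dvd_natCard hsH
  have hmul := H.index_mul_card
  rw [hk, hcard, hj] at hmul
  have n4 : H.index % 4 ≠ 0 := by
    intro h
    obtain ⟨i, hi'⟩ := Nat.dvd_of_mod_eq_zero h
    rw [hi'] at hmul
    have h5 : 2 * (i * k) = 2 * j + 1 := by nlinarith
    omega
  have n2 : ¬ Odd H.index := by
    intro ho
    have h3 : B ⊔ H = ⊤ := by
      rw [← Subgroup.index_eq_one]
      have d1 : (B ⊔ H).index ∣ 2 ^ 2 := by
        have := Subgroup.index_dvd_of_le (le_sup_left : B ≤ B ⊔ H)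
        rwa [hi] at this
      have d2 : (B ⊔ H).index ∣ H.index := Subgroup.index_dvd_of_le le_sup_right
      exact Nat.eq_one_of_dvd_coprimes ((Nat.coprime_two_left.2 ho).pow_left 2) d1 d2
    obtain ⟨b0, hb0, h, hh, hbh⟩ := Subgroup.mem_sup_of_normal_left.1
      (show t ∈ B ⊔ H from h3 ▸ Subgroup.mem_top t)
    have hb : b0⁻¹ ∈ B := B.inv_mem hb0
    have hbt : b0⁻¹ * t ∈ H := by rwa [← hbh, inv_mul_cancel_left]
    generalize b0⁻¹ = b at hb hbt
    have cA : ⁅t * t, b⁆ ∈ commutator S :=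
      Subgroup.commutator_mem_commutator (Subgroup.mem_top _) (Subgroup.mem_top _)
    have cH : ⁅t * t, b⁆ ∈ H := by
      have h4 : ⁅t * t, b⁆ = t * t * (b * t) * (t * t)⁻¹ * (b * t)⁻¹ := by
        rw [commutatorElement_def]; group
      rw [h4]
      exact H.mul_mem (H.mul_mem (H.mul_mem hsH hbt) (H.inv_mem hsH)) (H.inv_mem hbt)
    have dA := (commutator S).pow_mem cA (j + 1)
    have dH := H.pow_mem cH (j + 1)
    have dd : ⁅t * t, b⁆ ^ (j + 1) * ⁅t * t, b⁆ ^ (j + 1) = ⁅t * t, b⁆ := by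
      have h4 := Orb_pow B (h1 cA)
      rw [← pow_add, show j + 1 + (j + 1) = 2 * j + 1 + 1 by ring, ← hj, pow_succ, h4, one_mul]
    generalize ⁅t * t, b⁆ ^ (j + 1) = d at dA dH dd
    have e1 : t * t * (d * b) * (t * t)⁻¹ = d * b := by
      calc t * t * (d * b) * (t * t)⁻¹ = (t * t * d * (t * t)⁻¹) * ⁅t * t, b⁆ * b := by
            rw [commutatorElement_def]; group
        _ = d * b := by rw [hinv d dA, ← dd]; group
    have hb' : d * b ∈ B := B.mul_mem (h1 dA) hb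
    have hbt' : d * b * t ∈ H := by
      rw [mul_assoc]
      exact H.mul_mem dH hbt
    generalize d * b = b' at e1 hb' hbt'
    have aA : ⁅t, b'⁆ ∈ commutator S :=
      Subgroup.commutator_mem_commutator (Subgroup.mem_top _) (Subgroup.mem_top _)
    have e2 : ⁅t, b'⁆ = 1 := by
      refine Orb_sq B hodd (h1 aA) ?_
      rw [← hinv _ aA]
      calc ⁅t, b'⁆ = ⁅t, t * t * b' * (t * t)⁻¹⁆ := by rw [e1]
        _ = _ := by rw [commutatorElement_def, commutatorElement_def]; group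
    have e3 : Commute b' t := (commutatorElement_eq_one_iff_commute.1 e2).symm
    have e4 := H.pow_mem hbt' (Nat.card B * Nat.card B)
    rw [e3.mul_pow, pow_mul b', Orb_pow B hb', one_pow, one_mul, hj,
      show (2 * j + 1) * (2 * j + 1) = 4 * (j * j + j) + 1 by ring, pow_succ, pow_mul, t4, one_pow,
      one_mul] at e4
    exact hu2 e4
  rw [Nat.odd_iff] at n2
  omega

theorem orb3 [Module (ZMod 2) U] [Finite S] (τ : Representation (ZMod 2) S U)
    (hf : Function.Injective τ) (hU : Nat.card U = 4) {x : S} (hx : x ≠ 1)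
    (hodd : Odd (orderOf x)) : ∃ u, (stab τ u).index = 3 := by
  obtain ⟨u, hu⟩ : ∃ u, τ x u ≠ u := by
    by_contra hc
    push Not at hc
    exact hx (hf ((LinearMap.ext hc : τ x = 1).trans (map_one τ).symm))
  refine ⟨u, ?_⟩
  have hxu : x ∉ stab τ u := hu
  have hm : ∀ g g' : S, ∀ v : U, τ (g * g') v = τ g (τ g' v) := fun g g' v => by
    rw [map_mul, Module.End.mul_apply]
  have hrel : ∀ g g' : S, g⁻¹ * g' ∈ stab τ u ↔ τ g u = τ g' u := by
    intro g g'
    rw [mem_stab]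
    constructor
    · intro h
      conv_lhs => rw [← h, ← hm, mul_inv_cancel_left]
    · intro h
      rw [hm, ← h, ← hm, inv_mul_cancel, map_one, Module.End.one_apply]
  let f : S ⧸ stab τ u → U := Quotient.lift (fun g => τ g u) fun g g' h =>
    (hrel g g').1 (QuotientGroup.leftRel_apply.1 h)
  have f1 : Function.Injective f := by
    intro p q h
    obtain ⟨p, rfl⟩ := QuotientGroup.mk_surjective p
    obtain ⟨q, rfl⟩ := QuotientGroup.mk_surjective q
    exact QuotientGroup.eq.2 ((hrel p q).2 h)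
  have f2 : (0 : U) ∉ Set.range f := by
    rintro ⟨p, hp⟩
    obtain ⟨p, rfl⟩ := QuotientGroup.mk_surjective p
    have h1 : τ p u = 0 := hp
    have h2 : u = 0 := by
      have h3 := hm p⁻¹ p u
      rwa [inv_mul_cancel, map_one, Module.End.one_apply, h1, map_zero] at h3
    exact hu (by rw [h2, map_zero])
  haveI : Finite U := Nat.finite_of_card_ne_zero (by omega)
  haveI := Fintype.ofFinite U
  haveI := Fintype.ofFinite (S ⧸ stab τ u)
  have h4 := Fintype.card_lt_of_injective_of_notMem f f1 f2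
  rw [← Nat.card_eq_fintype_card, ← Nat.card_eq_fintype_card, hU, ← Subgroup.index_eq_card] at h4
  have h0 : (stab τ u).index ≠ 0 := Subgroup.index_ne_zero_of_finite
  have h1 : (stab τ u).index ≠ 1 := fun h =>
    hxu (Subgroup.index_eq_one.1 h ▸ Subgroup.mem_top x)
  have h2 : (stab τ u).index ≠ 2 := fun h => by
    obtain ⟨k, hk⟩ := hodd
    have h5 := (stab τ u).pow_mem (Subgroup.mul_self_mem_of_index_two h x) (k + 1)
    rw [← sq, ← pow_mul, show 2 * (k + 1) = 2 * k + 1 + 1 by ring, ← hk, pow_succ,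
      pow_orderOf_eq_one, one_mul] at h5
    exact hxu h5
  omega

end Pool.Agent.MP_f0649b_al
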