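import Pool.Agent.MP_f0649b_al.LG
import Pool.Agent.MP_f0649b_al.LGi
import Pool.Agent.MP_f0649b_al.Orb
import Pool.Agent.MP_f0649b_al.Lin

/-! The small cases for the linear group. -/

open Module

namespace Pool.Agent.MP_f0649b_al

variable {S U : Type} [Group S] [AddCommGroup U]

theorem LGMain_pow (m : ℕ) (hm : 5 ≤ m) : m ^ 2 < 2 ^ m := by
  induction m, hm using Nat.le_induction with
  | base => norm_num
  | succ n hn ih =>
    rw [pow_succ 2 n]
    nlinarith

theorem LGMain_arith {p e i m : ℕ} (hp : 2 ≤ p) (hd : p ∣ e) (h : p ^ m ≤ e ^ 2) (h1 : e ≤ i)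
    (h2 : i ≤ m) : p = 2 ∧ ((m = 2 ∧ e = 2 ∧ i = 2) ∨ (e = 4 ∧ i = 4)) := by
  have he0 : 0 < e := by
    rcases Nat.eq_zero_or_pos e with rfl | h0
    · have := Nat.pow_pos (n := m) (show 0 < p by omega)
      omega
    · exact h0
  have hpe : p ≤ e := Nat.le_of_dvd he0 hd
  have hm : m ≤ 4 := by
    by_contra hm
    have a1 := LGMain_pow m (by omega)
    have a2 : 2 ^ m ≤ p ^ m := Nat.pow_le_pow_left hp m
    have a3 : e ^ 2 ≤ m ^ 2 := Nat.pow_le_pow_left (h1.trans h2) 2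
    omega
  have hp4 : p ≤ 4 := by omega
  have he4 : e ≤ 4 := by omega
  have hi4 : i ≤ 4 := by omega
  interval_cases m <;> interval_cases p <;> interval_cases e <;> omega

theorem LGMain_comm {B : Subgroup S} (h2 : ∀ x ∈ B, ∀ y ∈ B, Commute x y) : ⁅B, B⁆ = ⊥ := by
  refine le_bot_iff.1 (Subgroup.commutator_le.2 fun x hx y hy => ?_)
  exact Subgroup.mem_bot.2 (commutatorElement_eq_one_iff_commute.2 (h2 x hx y hy))

theorem LGMain_comm' {B : Subgroup S} (h2 : ∀ x ∈ B, ∀ y ∈ B, Commute x y) :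
    commutator B = ⊥ := by
  refine le_bot_iff.1 (Subgroup.commutator_le.2 fun x _ y _ => ?_)
  exact Subgroup.mem_bot.2
    (commutatorElement_eq_one_iff_commute.2 (Subtype.ext (h2 x x.2 y y.2)))

theorem lgmain {p : ℕ} [Fact p.Prime] [Module (ZMod p) U] [Finite S] [Finite U]
    {τ : Representation (ZMod p) S U} (hτ : Irr τ) (hf : Function.Injective τ)
    (hN : IsPGroup p (derivedSeries S 2)) (hne : commutator S ≠ ⊥) {e : ℕ} (he : MinDeg S e)
    (hp : p ∣ e) (hU : Nat.card U ≤ e ^ 2) :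
    p = 2 ∧ ((e = 2 ∧ (∃ u, (stab τ u).index = 3) ∧ ∃ (B : Subgroup S) (κ : B →* ℂˣ) (x : B),
      B.index = 2 ∧ (x : S) ∈ commutator S ∧ κ x ^ 2 ≠ 1) ∨
      (e = 4 ∧ ∃ u, (stab τ u).index % 4 = 2)) := by
  have hab : ∀ x ∈ commutator S, ∀ y ∈ commutator S, Commute x y := by
    intro x hx y hy
    have := lg_p hτ (derivedSeries S 2) hN _ (Subgroup.commutator_mem_commutator hx hy)
    exact commutatorElement_eq_one_iff_commute.1 (hf (this.trans (map_one τ).symm))
  obtain ⟨B, h1, h2, h3⟩ := exists_B hab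
  have : B.Normal := Subgroup.Normal.of_commutator_le S h1
  have hc := coprime_B hτ hf B h2
  have hi := lg hτ hf B h1 h2 h3
  have hei : e ≤ B.index := by
    by_contra hlt
    have := lin2 he B (not_le.1 hlt)
    rw [LGMain_comm h2] at this
    exact hne (le_bot_iff.1 this)
  have hcard : Nat.card U = p ^ finrank (ZMod p) U := by
    have : Module.Finite (ZMod p) U := Module.Finite.of_finite
    rw [Module.natCard_eq_pow_finrank (K := ZMod p), Nat.card_zmod]
  obtain ⟨rfl, hcase⟩ := LGMain_arith (Fact.out : p.Prime).two_le hp (hcard ▸ hU) hei hi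
  have hodd : Odd (Nat.card B) := Nat.not_even_iff_odd.1 fun h => hc h.two_dvd
  refine ⟨rfl, ?_⟩
  rcases hcase with ⟨hm, rfl, hi2⟩ | ⟨rfl, hi4⟩
  · obtain ⟨x, hx, hx1⟩ := (Subgroup.bot_or_exists_ne_one (commutator S)).resolve_left hne
    have ho : Odd (orderOf x) := hodd.of_dvd_nat (B.orderOf_dvd_natCard (h1 hx))
    have hx2 : (⟨x, h1 hx⟩ : B) ^ 2 ∉ commutator B := by
      rw [LGMain_comm' h2, Subgroup.mem_bot]
      intro h
      have h' : x ^ 2 = 1 := congrArg Subtype.val h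
      have hd := orderOf_dvd_of_pow_eq_one h'
      rcases (Nat.dvd_prime Nat.prime_two).1 hd with h'' | h''
      · exact hx1 (orderOf_eq_one_iff.1 h'')
      · rw [h''] at ho
        exact absurd ho (by decide)
    obtain ⟨l, hl⟩ := exists_lin hx2
    refine Or.inl ⟨rfl, orb3 τ hf (by rw [hcard, hm]; rfl) hx1 ho, B, l, ⟨x, h1 hx⟩, hi2, hx, ?_⟩
    rwa [map_pow] at hl
  · exact Or.inr ⟨rfl, orb4 τ hf B h1 h2 hodd hi4 hne fun H hH => lin2 he H (by omega)⟩

end Pool.Agent.MP_f0649b_al
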