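import Pool.Agent.MP_f0649b_al.Defs

/-! The chief factor on which the group acts. -/

open Module

namespace Pool.Agent.MP_f0649b_al

variable {G : Type} [Group G] {V W : Type} [AddCommGroup V] [Module ℂ V] [AddCommGroup W]
  [Module ℂ W]

theorem Mod_aux {Q : Type} [Group Q] [Finite Q] {p : ℕ} [Fact p.Prime] (A : Subgroup Q)
    [A.Normal] (hc : ∀ x ∈ A, ∀ y ∈ A, x * y = y * x) (hp : ∀ x ∈ A, x ^ p = 1) :
    ∃ (U : Type) (_ : AddCommGroup U) (_ : Module (ZMod p) U) (_ : Finite U)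
      (τ : Representation (ZMod p) Q U) (π : Q → U), (∀ u, ∃ x ∈ A, π x = u) ∧
      (∀ x ∈ A, ∀ y ∈ A, π (x * y) = π x + π y) ∧ (∀ x ∈ A, π x = 0 ↔ x = 1) ∧
      ∀ g, ∀ x ∈ A, τ g (π x) = π (g * x * g⁻¹) := by
  classical
  let _ : CommGroup A :=
    { (inferInstance : Group A) with mul_comm := fun x y => Subtype.ext (hc _ x.2 _ y.2) }
  obtain ⟨_⟩ : Nonempty (Module (ZMod p) (Additive A)) := ⟨AddCommGroup.zmodModule fun x => by
    apply Additive.toMul.injective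
    rw [toMul_nsmul]
    exact Subtype.ext (hp _ x.toMul.2)⟩
  let τ : Q →* Module.End (ZMod p) (Additive A) :=
    { toFun := fun g => AddMonoidHom.toZModLinearMap p
        (MonoidHom.toAdditive (MulAut.conjNormal (H := A) g).toMonoidHom)
      map_one' := by
        refine LinearMap.ext fun x => ?_
        rw [map_one]
        rfl
      map_mul' := fun g h => by
        refine LinearMap.ext fun x => ?_
        rw [map_mul]
        rfl }
  refine ⟨Additive A, inferInstance, inferInstance, inferInstance, τ,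
    fun x => if h : x ∈ A then Additive.ofMul ⟨x, h⟩ else 0,
    fun u => ⟨_, u.toMul.2, dif_pos u.toMul.2⟩, fun x hx y hy => ?_, fun x hx => ?_,
    fun g x hx => ?_⟩
  · simp only [dif_pos hx, dif_pos hy, dif_pos (A.mul_mem hx hy)]
    rfl
  · simp only [dif_pos hx]
    exact Subtype.ext_iff (a1 := (⟨x, hx⟩ : A)) (a2 := 1)
  · simp only [dif_pos hx, dif_pos (Subgroup.Normal.conj_mem inferInstance x hx g)]
    rfl

theorem Mod_pow {Q : Type} [Group Q] {p : ℕ} {y : Q} (hy : y ≠ 1) (k : ℕ) (h : y ^ p ^ k = 1) :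
    ∃ j, y ^ p ^ j ≠ 1 ∧ (y ^ p ^ j) ^ p = 1 := by
  induction k with
  | zero => exact absurd (by simpa using h) hy
  | succ k ih =>
    by_cases hk : y ^ p ^ k = 1
    · exact ih hk
    · exact ⟨k, hk, by rw [← pow_mul, ← pow_succ, h]⟩

theorem exists_E [Finite G] (hG : AbCent G) (N : Subgroup G) [N.Normal]
    (hN : ¬ N ≤ Subgroup.center G) :
    ∃ E : Subgroup G, E.Normal ∧ E ≤ N ∧ ¬ E ≤ Subgroup.center G ∧
      ∀ K : Subgroup G, K.Normal → K < E → K ≤ Subgroup.center G := by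
  have _ := hG
  obtain ⟨E, ⟨h1, h2, h3⟩, hm⟩ := (wellFounded_lt (α := Subgroup G)).has_min
    {E | E.Normal ∧ E ≤ N ∧ ¬ E ≤ Subgroup.center G} ⟨N, inferInstance, le_rfl, hN⟩
  refine ⟨E, h1, h2, h3, fun K hK hlt => ?_⟩
  by_contra hc
  exact hm K ⟨hK, hlt.le.trans h2, hc⟩ hlt

theorem exists_mod [Finite G] {p : ℕ} [Fact p.Prime] (E : Subgroup G) [E.Normal]
    (hE : IsPGroup p E) (h1 : ¬ E ≤ Subgroup.center G) (h2 : ⁅E, E⁆ ≤ Subgroup.center G)
    (h3 : ∀ K : Subgroup G, K.Normal → K < E → K ≤ Subgroup.center G) :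
    ∃ (U : Type) (_ : AddCommGroup U) (_ : Module (ZMod p) U) (_ : Finite U)
      (τ : Representation (ZMod p) G U) (π : G → U), Irr τ ∧ (∀ u, ∃ x ∈ E, π x = u) ∧
      (∀ x ∈ E, ∀ y ∈ E, π (x * y) = π x + π y) ∧ (∀ x ∈ E, π x = 0 ↔ x ∈ Subgroup.center G) ∧
      ∀ g, ∀ x ∈ E, τ g (π x) = π (g * x * g⁻¹) := by
  obtain ⟨q, hq, hs⟩ : ∃ q : G →* G ⧸ Subgroup.center G,
      (∀ x, q x = 1 ↔ x ∈ Subgroup.center G) ∧ Function.Surjective q :=
    ⟨QuotientGroup.mk' _, fun x => QuotientGroup.eq_one_iff x, QuotientGroup.mk'_surjective _⟩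
  have hn : ∀ x ∈ E, ∀ g, g * x * g⁻¹ ∈ E := Subgroup.Normal.conj_mem inferInstance
  have hc : ∀ x ∈ E, ∀ y ∈ E, Commute (q x) (q y) := fun x hx y hy => by
    rw [← commutatorElement_eq_one_iff_commute, ← map_commutatorElement, hq]
    exact h2 (Subgroup.commutator_mem_commutator hx hy)
  obtain ⟨x0, hx0, hx1⟩ := SetLike.not_le_iff_exists.1 h1
  have hp : ∀ x ∈ E, q x ^ p = 1 := by
    let K : Subgroup G :=
      { carrier := {x | x ∈ E ∧ q x ^ p = 1}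
        one_mem' := ⟨E.one_mem, by rw [map_one, one_pow]⟩
        mul_mem' := fun {a b} ha hb => ⟨E.mul_mem ha.1 hb.1, by
          rw [map_mul, (hc a ha.1 b hb.1).mul_pow, ha.2, hb.2, one_mul]⟩
        inv_mem' := fun {a} ha => ⟨E.inv_mem ha.1, by rw [map_inv, inv_pow, ha.2, inv_one]⟩ }
    have hK : K.Normal := ⟨fun a ha g => ⟨hn a ha.1 g, by
      rw [map_mul, map_mul, map_inv, conj_pow, ha.2, mul_one, mul_inv_cancel]⟩⟩
    have hle : K ≤ E := fun a ha => ha.1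
    rcases hle.eq_or_lt with h | h
    · exact fun x hx => (show x ∈ K from h ▸ hx).2
    · obtain ⟨k, hk⟩ := hE ⟨x0, hx0⟩
      have hk' : x0 ^ p ^ k = 1 := congrArg Subtype.val hk
      obtain ⟨j, hj, hj'⟩ := Mod_pow (p := p) (mt (hq x0).1 hx1) k
        (by rw [← map_pow, hk', map_one])
      rw [← map_pow] at hj hj'
      exact absurd ((hq _).2 (h3 K hK h ⟨E.pow_mem hx0 _, hj'⟩)) hj
  have : (E.map q).Normal := Subgroup.Normal.map inferInstance q hs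
  obtain ⟨U, _, _, _, τ, π, p1, p2, p3, p4⟩ := Mod_aux (p := p) (E.map q)
    (by
      rintro _ ⟨x, hx, rfl⟩ _ ⟨y, hy, rfl⟩
      exact hc x hx y hy)
    (by
      rintro _ ⟨x, hx, rfl⟩
      exact hp x hx)
  have hm : ∀ x ∈ E, q x ∈ E.map q := fun x hx => ⟨x, hx, rfl⟩
  have q1 : ∀ u, ∃ x ∈ E, π (q x) = u := fun u => by
    obtain ⟨_, ⟨x, hx, rfl⟩, h⟩ := p1 u
    exact ⟨x, hx, h⟩
  have q2 : ∀ x ∈ E, ∀ y ∈ E, π (q (x * y)) = π (q x) + π (q y) := fun x hx y hy => by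
    rw [map_mul, p2 _ (hm x hx) _ (hm y hy)]
  have q3 : ∀ x ∈ E, π (q x) = 0 ↔ x ∈ Subgroup.center G := fun x hx =>
    (p3 _ (hm x hx)).trans (hq x)
  have q4 : ∀ g, ∀ x ∈ E, τ (q g) (π (q x)) = π (q (g * x * g⁻¹)) := fun g x hx => by
    rw [p4 _ _ (hm x hx), map_mul, map_mul, map_inv]
  have q5 : π (q 1) = 0 := (q3 1 E.one_mem).2 (Subgroup.one_mem _)
  refine ⟨U, inferInstance, inferInstance, inferInstance, τ.comp q, fun x => π (q x),
    ⟨⟨π (q x0), 0, mt (q3 x0 hx0).1 hx1⟩, fun Y hY => ?_⟩, q1, q2, q3, q4⟩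
  let K : Subgroup G :=
    { carrier := {x | x ∈ E ∧ π (q x) ∈ Y}
      one_mem' := ⟨E.one_mem, by rw [q5]; exact Y.zero_mem⟩
      mul_mem' := fun {a b} ha hb => ⟨E.mul_mem ha.1 hb.1, by
        rw [q2 a ha.1 b hb.1]; exact Y.add_mem ha.2 hb.2⟩
      inv_mem' := fun {a} ha => ⟨E.inv_mem ha.1, by
        have h := q2 a ha.1 a⁻¹ (E.inv_mem ha.1)
        rw [mul_inv_cancel, q5] at h
        rw [eq_neg_of_add_eq_zero_right h.symm]
        exact Y.neg_mem ha.2⟩ }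
  have hK : K.Normal := ⟨fun a ha g => ⟨hn a ha.1 g, by
    rw [← q4 g a ha.1]; exact hY g _ ha.2⟩⟩
  have hle : K ≤ E := fun a ha => ha.1
  rcases hle.eq_or_lt with h | h
  · refine Or.inr (eq_top_iff.2 fun u _ => ?_)
    obtain ⟨x, hx, rfl⟩ := q1 u
    exact (show x ∈ K from h ▸ hx).2
  · refine Or.inl (eq_bot_iff.2 fun u hu => ?_)
    obtain ⟨x, hx, rfl⟩ := q1 u
    exact (q3 x hx).2 (h3 K hK h ⟨hx, hu⟩)

end Pool.Agent.MP_f0649b_al
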