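import Pool.Agent.MP_f0649b_al.Mackey

/-! Degrees coming from orbits. -/

open Module

namespace Pool.Agent.MP_f0649b_al

variable {G : Type} [Group G] {V W : Type} [AddCommGroup V] [Module ℂ V] [AddCommGroup W]
  [Module ℂ W]

/-- the central character -/
theorem Orbit_cent [FiniteDimensional ℂ V] {ρ : Representation ℂ G V} (hi : Irr ρ)
    (hf : Function.Injective ρ) :
    ∃ l : G → ℂ, l 1 = 1 ∧
      (∀ a ∈ Subgroup.center G, ∀ b ∈ Subgroup.center G, l (a * b) = l a * l b) ∧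
      ∀ a ∈ Subgroup.center G, ∀ b ∈ Subgroup.center G, l a = l b → a = b := by
  have hn : (finrank ℂ V : ℂ) ≠ 0 := Nat.cast_ne_zero.2 (dim_pos hi).ne'
  have h0 : ∀ (z : G) (c : ℂ), ρ z = c • (1 : Module.End ℂ V) →
      LinearMap.trace ℂ V (ρ z) / (finrank ℂ V : ℂ) = c := by
    intro z c hc
    rw [hc, map_smul, LinearMap.trace_one, smul_eq_mul, mul_div_cancel_right₀ _ hn]
  have h1 : ∀ z ∈ Subgroup.center G,
      ρ z = (LinearMap.trace ℂ V (ρ z) / (finrank ℂ V : ℂ)) • (1 : Module.End ℂ V) := by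
    intro z hz
    obtain ⟨c, hc⟩ := schur hi (ρ z) fun g => by
      rw [← map_mul, ← map_mul, Subgroup.mem_center_iff.1 hz g]
    rw [h0 z c hc]
    exact hc
  refine ⟨fun z => LinearMap.trace ℂ V (ρ z) / (finrank ℂ V : ℂ), h0 1 1 (by simp), ?_, ?_⟩
  · intro a ha b hb
    refine h0 _ _ ?_
    rw [map_mul, mul_smul]
    conv_lhs => rw [h1 a ha, h1 b hb]
    rw [smul_mul_assoc, one_mul]
  · intro a ha b hb hab
    refine hf ?_
    rw [h1 a ha, h1 b hb]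
    exact congrArg (fun c : ℂ => c • (1 : Module.End ℂ V)) hab

theorem Orbit_conj {z : G} (hz : z ∈ Subgroup.center G) (g : G) : g * z * g⁻¹ = z := by
  rw [Subgroup.mem_center_iff.1 hz g, mul_inv_cancel_right]

theorem Orbit_central (hG : AbCent G) (E : Subgroup G) [E.Normal] {w : G} (hw : w ∈ E)
    (h : ∀ y ∈ E, y * w = w * y) : w ∈ Subgroup.center G := by
  refine hG (E ⊓ Subgroup.centralizer (E : Set G)) inferInstance ?_
    ⟨hw, Subgroup.mem_centralizer_iff.2 h⟩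
  intro a ha b hb
  exact Subgroup.mem_centralizer_iff.1 hb.2 a ha.1

theorem orbit_cd [Finite G] [FiniteDimensional ℂ V] {ρ : Representation ℂ G V} (hi : Irr ρ)
    (hf : Function.Injective ρ) (hG : AbCent G) (E : Subgroup G) [E.Normal]
    (h2 : ⁅E, E⁆ ≤ Subgroup.center G) {x : G} (hx : x ∈ E) (H : Subgroup G)
    (hH : ∀ g, g ∈ H ↔ g * x * g⁻¹ * x⁻¹ ∈ Subgroup.center G) : H.index ∈ cd G := by
  obtain ⟨l, l1, lm, li⟩ := Orbit_cent hi hf
  have hN : E.Normal := inferInstance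
  have hc : ∀ a ∈ E, ∀ b ∈ E, a * b * a⁻¹ * b⁻¹ ∈ Subgroup.center G := fun a ha b hb =>
    h2 (Subgroup.commutator_mem_commutator ha hb)
  refine mackey E H (fun y hy => (hH y).2 (hc y hy x hx)) (fun g => l (g * x * g⁻¹ * x⁻¹))
    (by simpa using l1) ?_ ?_
  · intro a ha b hb
    have ha' := (hH a).1 ha
    have hb' := (hH b).1 hb
    have e : a * b * x * (a * b)⁻¹ * x⁻¹
        = a * (b * x * b⁻¹ * x⁻¹) * a⁻¹ * (a * x * a⁻¹ * x⁻¹) := by group
    change l (a * b * x * (a * b)⁻¹ * x⁻¹) = _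
    rw [e, Orbit_conj hb', lm _ hb' _ ha', mul_comm]
  · intro g hg
    have hx' : g⁻¹ * x * g ∈ E := hN.conj_mem' x hx g
    have hw : x⁻¹ * (g⁻¹ * x * g) ∈ Subgroup.center G := by
      refine Orbit_central hG E (E.mul_mem (E.inv_mem hx) hx') fun y hy => ?_
      have hy' := E.inv_mem hy
      have k1 := li _ (hc _ (hN.conj_mem _ hy' g) x hx) _ (hc _ hy' x hx) (hg _ hy')
      have k2 := Orbit_conj (hc _ hy' _ hx') g
      have k3 : g * y⁻¹ * g⁻¹ * x * (g * y⁻¹ * g⁻¹)⁻¹ * x⁻¹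
          = g * (y⁻¹ * (g⁻¹ * x * g) * y⁻¹⁻¹ * (g⁻¹ * x * g)⁻¹) * g⁻¹ := by group
      rw [k3, k2] at k1
      calc y * (x⁻¹ * (g⁻¹ * x * g))
          = x⁻¹ * y * (y⁻¹ * x * y⁻¹⁻¹ * x⁻¹) * (g⁻¹ * x * g) := by group
        _ = x⁻¹ * y * (y⁻¹ * (g⁻¹ * x * g) * y⁻¹⁻¹ * (g⁻¹ * x * g)⁻¹) * (g⁻¹ * x * g) := by
          rw [k1]
        _ = x⁻¹ * (g⁻¹ * x * g) * y := by group
    rw [hH]
    have e : g * x * g⁻¹ * x⁻¹ = g * x * (x⁻¹ * (g⁻¹ * x * g))⁻¹ * (g * x)⁻¹ := by group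
    rw [e, Orbit_conj (Subgroup.inv_mem _ hw)]
    exact Subgroup.inv_mem _ hw

end Pool.Agent.MP_f0649b_al
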