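import Pool.Agent.MP_f0649b_al.Basic

/-! The square of the degree. -/

open Module

namespace Pool.Agent.MP_f0649b_al

variable {G : Type} [Group G] {V W : Type} [AddCommGroup V] [Module ℂ V] [AddCommGroup W]
  [Module ℂ W]

theorem Sq_exists_noncomm (hG : AbCent G) (E : Subgroup G) [E.Normal] {w : G} (hw : w ∈ E)
    (hc : w ∉ Subgroup.center G) : ∃ y ∈ E, y * w ≠ w * y := by
  by_contra hne
  push Not at hne
  refine hc (hG (E ⊓ Subgroup.centralizer (E : Set G)) inferInstance ?_ ⟨hw, ?_⟩)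
  · intro x hx y hy
    exact hy.2 x hx.1
  · intro y hy
    exact hne y hy

theorem Sq_trace [FiniteDimensional ℂ V] {ρ : Representation ℂ G V} (hi : Irr ρ)
    (hf : Function.Injective ρ) (hG : AbCent G) (E : Subgroup G) [E.Normal]
    (h2 : ⁅E, E⁆ ≤ Subgroup.center G) {w : G} (hw : w ∈ E) (hc : w ∉ Subgroup.center G) :
    LinearMap.trace ℂ V (ρ w) = 0 := by
  obtain ⟨y, hy, hne⟩ := Sq_exists_noncomm hG E hw hc
  have hz : y * w * y⁻¹ * w⁻¹ ∈ Subgroup.center G :=
    h2 (Subgroup.commutator_mem_commutator hy hw)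
  obtain ⟨c, hcz⟩ := schur hi (ρ (y * w * y⁻¹ * w⁻¹)) (fun g => by
    rw [← map_mul, ← map_mul, Subgroup.mem_center_iff.1 hz g])
  have hc1 : c ≠ 1 := by
    intro h1
    rw [h1, one_smul, ← map_one ρ] at hcz
    have h3 := hf hcz
    apply hne
    calc y * w = y * w * y⁻¹ * w⁻¹ * (w * y) := by group
      _ = w * y := by rw [h3, one_mul]
  have e1 : LinearMap.trace ℂ V (ρ (y * w * y⁻¹)) = LinearMap.trace ℂ V (ρ w) := by
    rw [map_mul ρ (y * w), LinearMap.trace_mul_comm, ← map_mul, inv_mul_cancel_left]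
  have e2 : LinearMap.trace ℂ V (ρ (y * w * y⁻¹)) = c * LinearMap.trace ℂ V (ρ w) := by
    have e3 : y * w * y⁻¹ = y * w * y⁻¹ * w⁻¹ * w := by group
    rw [e3, map_mul ρ _ w, hcz, smul_mul_assoc, one_mul, map_smul, smul_eq_mul]
  have e4 : (c - 1) * LinearMap.trace ℂ V (ρ w) = 0 := by
    rw [sub_mul, one_mul, ← e2, e1, sub_self]
  exact (mul_eq_zero.1 e4).resolve_left (sub_ne_zero.2 hc1)

theorem card_le_sq [FiniteDimensional ℂ V] {ρ : Representation ℂ G V} (hi : Irr ρ)
    (hf : Function.Injective ρ) (hG : AbCent G) (E : Subgroup G) [E.Normal]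
    (h2 : ⁅E, E⁆ ≤ Subgroup.center G) {U : Type} [AddCommGroup U] [Finite U] (π : G → U)
    (hs : ∀ u, ∃ x ∈ E, π x = u) (hm : ∀ x ∈ E, ∀ y ∈ E, π (x * y) = π x + π y)
    (h0 : ∀ x ∈ E, π x = 0 ↔ x ∈ Subgroup.center G) : Nat.card U ≤ finrank ℂ V ^ 2 := by
  classical
  choose x hxE hxπ using hs
  have := Fintype.ofFinite U
  have hli : LinearIndependent ℂ (fun u : U => (ρ (x u) : Module.End ℂ V)) := by
    rw [Fintype.linearIndependent_iff]
    intro g hg u
    have h1 := congrArg (fun T : Module.End ℂ V => LinearMap.trace ℂ V (ρ (x u)⁻¹ * T)) hg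
    simp only [Finset.mul_sum, mul_smul_comm, map_sum, map_smul, mul_zero, map_zero,
      smul_eq_mul] at h1
    rw [Finset.sum_eq_single u] at h1
    · rw [← map_mul, inv_mul_cancel, map_one, LinearMap.trace_one] at h1
      exact (mul_eq_zero.1 h1).resolve_right (Nat.cast_ne_zero.2 (dim_pos hi).ne')
    · intro v _ hv
      have hw : (x u)⁻¹ * x v ∈ E := E.mul_mem (E.inv_mem (hxE u)) (hxE v)
      have hc : (x u)⁻¹ * x v ∉ Subgroup.center G := by
        intro hc
        have h3 := hm _ (hxE u) _ hw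
        rw [mul_inv_cancel_left, (h0 _ hw).2 hc, add_zero, hxπ, hxπ] at h3
        exact hv h3
      rw [← map_mul, Sq_trace hi hf hG E h2 hw hc, mul_zero]
    · intro h
      exact absurd (Finset.mem_univ u) h
  have h4 := hli.fintype_card_le_finrank
  rw [Module.finrank_linearMap] at h4
  rw [Nat.card_eq_fintype_card, sq]
  exact h4

end Pool.Agent.MP_f0649b_al
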