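import Pool.Agent.MP_f0649b_al.LGMain
import Pool.Agent.MP_f0649b_al.Mod
import Pool.Agent.MP_f0649b_al.Sq
import Pool.Agent.MP_f0649b_al.Four
import Pool.Agent.MP_f0649b_al.Orbit
import Pool.Agent.MP_f0649b_al.Quo

/-! Primitive representations of minimal degree. -/

open Module

namespace Pool.Agent.MP_f0649b_al

variable {G : Type} [Group G] {V W : Type} [AddCommGroup V] [Module ℂ V] [AddCommGroup W]
  [Module ℂ W]

theorem PF_bot {H K : Subgroup G} (h : H ≤ Subgroup.center G) : ⁅H, K⁆ = ⊥ :=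
  Subgroup.commutator_eq_bot_iff_le_centralizer.2 (h.trans (Subgroup.center_le_centralizer _))

theorem PF_fix {p : ℕ} [Fact p.Prime] {U : Type} [AddCommGroup U] [Module (ZMod p) U]
    {E : Subgroup G} [E.Normal] {τ : Representation (ZMod p) G U} {π : G → U}
    (hm : ∀ x ∈ E, ∀ y ∈ E, π (x * y) = π x + π y)
    (h0 : ∀ x ∈ E, π x = 0 ↔ x ∈ Subgroup.center G)
    (hc : ∀ g, ∀ x ∈ E, τ g (π x) = π (g * x * g⁻¹)) (g : G) {x : G} (hx : x ∈ E) :
    τ g (π x) = π x ↔ g * x * g⁻¹ * x⁻¹ ∈ Subgroup.center G := by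
  have h1 : g * x * g⁻¹ ∈ E := Subgroup.Normal.conj_mem inferInstance x hx g
  have h2 : π x + π x⁻¹ = 0 := by
    rw [← hm x hx _ (E.inv_mem hx), mul_inv_cancel, h0 1 E.one_mem]
    exact Subgroup.one_mem _
  rw [← h0 _ (E.mul_mem h1 (E.inv_mem hx)), hm _ h1 _ (E.inv_mem hx), hc g x hx,
    eq_neg_of_add_eq_zero_right h2, add_neg_eq_zero]

theorem pf [Finite G] [FiniteDimensional ℂ V] {ρ : Representation ℂ G V} (hi : Irr ρ)
    (hf : Function.Injective ρ) (hG : AbCent G) {p : ℕ} [Fact p.Prime]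
    (hN : IsPGroup p (derivedSeries G 2)) (h3 : derivedSeries G 3 ≠ ⊥)
    (hm : MinDeg G (finrank ℂ V)) (hp : p ∣ finrank ℂ V) :
    p = 2 ∧ ((finrank ℂ V = 2 ∧ 3 ∈ cd G ∧ 4 ∈ cd G) ∨
      (finrank ℂ V = 4 ∧ ∃ c ∈ cd G, c % 4 = 2)) := by
  have hnil : Group.IsNilpotent (derivedSeries G 2) := hN.isNilpotent
  have hnc : ¬ derivedSeries G 2 ≤ Subgroup.center G := fun h => h3 (PF_bot h)
  obtain ⟨E, hEn, hEN, hEc, hEm⟩ := exists_E hG (derivedSeries G 2) hnc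
  have hEE : ⁅E, E⁆ ≤ Subgroup.center G :=
    (Subgroup.commutator_mono hEN hEN).trans (np hG _ hnil)
  obtain ⟨U, _, _, _, τ, π, hτ, hs, hmul, h0, hc⟩ := exists_mod E (hN.to_le hEN) hEc hEE hEm
  obtain ⟨S, _, _, πS, ψ, hsur, hinj, hψ⟩ := faithful_quot τ
  have hcomp : ψ.comp πS = τ := MonoidHom.ext hψ
  have hψi : Irr ψ := (irr_comp πS hsur ψ).1 (by rwa [hcomp])
  have hSN : IsPGroup p (derivedSeries S 2) := by
    rw [← map_derivedSeries_eq hsur 2]
    exact hN.map πS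
  have hcS : (commutator G).map πS = commutator S := by
    simpa only [derivedSeries_one] using map_derivedSeries_eq hsur 1
  have hab : ∃ a ∈ E, ∃ b ∈ E, ¬ Commute a b := by
    by_contra h
    push Not at h
    exact hEc (hG E hEn h)
  have hne : commutator S ≠ ⊥ := by
    intro hb
    have k1 : ⁅commutator G, E⁆ ≤ Subgroup.center G := by
      refine Subgroup.commutator_le.2 fun g hg x hx => ?_
      have : πS g = 1 := by
        have : πS g ∈ commutator S := hcS ▸ Subgroup.mem_map_of_mem πS hg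
        rwa [hb, Subgroup.mem_bot] at this
      rw [commutatorElement_def, ← PF_fix hmul h0 hc g hx, ← hψ, this, map_one]
      rfl
    have k2 : ⁅⁅commutator G, commutator G⁆, E⁆ = ⊥ :=
      Subgroup.commutator_commutator_eq_bot_of_rotate (PF_bot k1)
        (PF_bot (by rwa [Subgroup.commutator_comm]))
    obtain ⟨a, ha, b, hb', hn⟩ := hab
    have k3 := Subgroup.commutator_mem_commutator (H₁ := ⁅commutator G, commutator G⁆)
      (hEN ha) hb'
    rw [k2, Subgroup.mem_bot, commutatorElement_eq_one_iff_commute] at k3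
    exact hn k3
  have horb : ∀ u, (stab ψ u).index ∈ cd G := by
    intro u
    obtain ⟨x, hx, rfl⟩ := hs u
    rw [← Subgroup.index_comap_of_surjective _ hsur]
    refine orbit_cd hi hf hG E hEE hx _ fun g => ?_
    rw [Subgroup.mem_comap, mem_stab, hψ, PF_fix hmul h0 hc g hx]
  have hE1 : ∀ a ∈ E, πS a = 1 := by
    intro a ha
    apply hinj
    rw [hψ, map_one]
    refine LinearMap.ext fun u => ?_
    obtain ⟨x, hx, rfl⟩ := hs u
    exact (PF_fix hmul h0 hc a hx).2 (hEE (Subgroup.commutator_mem_commutator ha hx))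
  obtain ⟨hp2, h⟩ := lgmain hψi hinj hSN hne (hm.of_surj πS hsur) hp
    (card_le_sq hi hf hG E hEE π hs hmul h0)
  refine ⟨hp2, ?_⟩
  rcases h with ⟨h2, ⟨u, hu⟩, B, κ, x, hB, hx, hκ⟩ | ⟨h4, u, hu⟩
  · refine Or.inl ⟨h2, hu ▸ horb u, ?_⟩
    obtain ⟨a, ha, b, hb, hn⟩ := hab
    rw [← hcS] at hx
    obtain ⟨y, hy, hyx⟩ := hx
    have hyB : y ∈ B.comap πS := by
      rw [Subgroup.mem_comap, hyx]
      exact x.2
    have hEB : ∀ a ∈ E, a ∈ B.comap πS := fun a ha => by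
      rw [Subgroup.mem_comap, hE1 a ha]
      exact B.one_mem
    refine four_cd hi hf h2 (B.comap πS) (by rwa [Subgroup.index_comap_of_surjective _ hsur])
      (κ.comp (πS.subgroupComap B)) ⟨y, hyB⟩ hy ?_ ⟨a, hEB a ha⟩ ⟨b, hEB b hb⟩ hn
    have : πS.subgroupComap B ⟨y, hyB⟩ = x := Subtype.ext hyx
    rwa [MonoidHom.comp_apply, this]
  · exact Or.inr ⟨h4, _, horb u, hu⟩

theorem pm [Finite G] [FiniteDimensional ℂ V] {ρ : Representation ℂ G V} (hi : Irr ρ)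
    (hρ : QPrim ρ) {p : ℕ} [Fact p.Prime] (hN : IsPGroup p (derivedSeries G 2))
    (h3 : ∃ x ∈ derivedSeries G 3, ρ x ≠ 1) (hm : MinDeg G (finrank ℂ V)) :
    p = 2 ∧ ((finrank ℂ V = 2 ∧ 3 ∈ cd G ∧ 4 ∈ cd G) ∨
      (finrank ℂ V = 4 ∧ ∃ c ∈ cd G, c % 4 = 2)) := by
  obtain ⟨X, _, _, π, ψ, hsur, hinj, hψ⟩ := faithful_quot ρ
  have hcomp : ψ.comp π = ρ := MonoidHom.ext hψ
  have hψi : Irr ψ := (irr_comp π hsur ψ).1 (by rwa [hcomp])
  obtain ⟨x, hx, hx1⟩ := h3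
  have hp : p ∣ finrank ℂ V := p_dvd hi hρ hN
    ⟨x, Subgroup.commutator_le_left (derivedSeries G 2) (derivedSeries G 2) hx, hx1⟩
  have hXN : IsPGroup p (derivedSeries X 2) := by
    rw [← map_derivedSeries_eq hsur 2]
    exact hN.map π
  have hX3 : derivedSeries X 3 ≠ ⊥ := by
    intro h
    have : π x ∈ derivedSeries X 3 := map_derivedSeries_eq hsur 3 ▸ Subgroup.mem_map_of_mem π hx
    rw [h, Subgroup.mem_bot] at this
    exact hx1 (by rw [← hψ, this, map_one])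
  obtain ⟨hp2, h⟩ := pf hψi hinj (abcent_of_qprim hρ π ψ hsur hinj hψ) hXN hX3
    (hm.of_surj π hsur) hp
  refine ⟨hp2, h.imp ?_ ?_⟩
  · exact fun ⟨h1, h2, h3⟩ => ⟨h1, cd_of_surj π hsur h2, cd_of_surj π hsur h3⟩
  · exact fun ⟨h1, c, h2, h3⟩ => ⟨h1, c, cd_of_surj π hsur h2, h3⟩

end Pool.Agent.MP_f0649b_al
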