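import Pool.Agent.MP_f0649b_al.Basic

/-! The reduced permutation representation, and divisibility of degrees. -/

open Module Pointwise

namespace Pool.Agent.MP_f0649b_al

variable {G : Type} [Group G] {V W : Type} [AddCommGroup V] [Module ℂ V] [AddCommGroup W]
  [Module ℂ W]

/-- the sum functional -/
def Perm_sum (X : Type) [Fintype X] : (X → ℂ) →ₗ[ℂ] ℂ where
  toFun f := ∑ c, f c
  map_add' f g := by simp [Finset.sum_add_distrib]
  map_smul' a f := by simp [Finset.mul_sum]

/-- the reduced permutation representation -/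
def Perm_rep (G X : Type) [Group G] [Fintype X] [MulAction G X] :
    Representation ℂ G (LinearMap.ker (Perm_sum X)) where
  toFun g :=
    { toFun := fun f => ⟨fun c => f.1 (g⁻¹ • c),
        (Equiv.sum_comp (MulAction.toPerm g⁻¹) f.1).trans f.2⟩
      map_add' := fun _ _ => rfl
      map_smul' := fun _ _ => rfl }
  map_one' := by
    ext f c
    simp
  map_mul' g h := by
    ext f c
    simp [mul_smul]

theorem Perm_rep_apply {G X : Type} [Group G] [Fintype X] [MulAction G X] (g : G)
    (f : LinearMap.ker (Perm_sum X)) (c : X) : (Perm_rep G X g f).1 c = f.1 (g⁻¹ • c) := rfl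

theorem Perm_finrank (X : Type) [Fintype X] [Nonempty X] :
    finrank ℂ (LinearMap.ker (Perm_sum X)) + 1 = Fintype.card X := by
  classical
  obtain ⟨c⟩ := ‹Nonempty X›
  have h : LinearMap.range (Perm_sum X) = ⊤ :=
    LinearMap.range_eq_top.2 fun a => ⟨Pi.single c a, by simp [Perm_sum]⟩
  have := LinearMap.finrank_range_add_finrank_ker (Perm_sum X)
  rw [h] at this
  simpa [add_comm] using this

theorem perm [Finite G] (H : Subgroup G) :
    ∃ (V : Type) (_ : AddCommGroup V) (_ : Module ℂ V) (_ : FiniteDimensional ℂ V)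
      (ρ : Representation ℂ G V), finrank ℂ V + 1 = H.index ∧ (∀ x, ρ x = 1 → x ∈ H) ∧
      ∀ K : Subgroup G, K.Normal → K ⊔ H = ⊤ → ∀ v, (∀ x ∈ K, ρ x v = v) → v = 0 := by
  classical
  have := Fintype.ofFinite (G ⧸ H)
  refine ⟨_, inferInstance, inferInstance, inferInstance, Perm_rep G (G ⧸ H), ?_, fun x hx => ?_,
    fun K hK hKH v hv => ?_⟩
  · rw [Perm_finrank, Subgroup.index, Nat.card_eq_fintype_card]
  · by_contra hxH
    have h1 : ((x : G) : G ⧸ H) ≠ ((1 : G) : G ⧸ H) := fun e =>
      hxH (by simpa using QuotientGroup.eq.1 e.symm)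
    let f : LinearMap.ker (Perm_sum (G ⧸ H)) :=
      ⟨Pi.single ((1 : G) : G ⧸ H) 1 - Pi.single ((x : G) : G ⧸ H) 1, by
        simp [Perm_sum, Finset.sum_sub_distrib]⟩
    have h2 := Perm_rep_apply x f (x : G ⧸ H)
    rw [hx, MulAction.Quotient.smul_mk, smul_eq_mul, inv_mul_cancel] at h2
    simp only [f, Module.End.one_apply, Pi.sub_apply, Pi.single_eq_same,
      Pi.single_eq_of_ne h1, Pi.single_eq_of_ne h1.symm] at h2
    norm_num at h2
  · have h1 : ∀ c : G ⧸ H, v.1 c = v.1 ((1 : G) : G ⧸ H) := by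
      intro c
      obtain ⟨g, rfl⟩ := QuotientGroup.mk_surjective c
      have hg : g ∈ (K : Set G) * (H : Set G) := by
        rw [← Subgroup.normal_mul, hKH]
        trivial
      obtain ⟨k, hk, h, hh, rfl⟩ := hg
      have h2 := Perm_rep_apply k v ((k * h : G) : G ⧸ H)
      rw [hv k hk, MulAction.Quotient.smul_mk, smul_eq_mul, inv_mul_cancel_left] at h2
      exact h2.trans (congrArg v.1 (QuotientGroup.eq.2 (by simpa using hh)))
    have h2 : ∑ c, v.1 c = 0 := v.2
    simp only [h1, Finset.sum_const, Finset.card_univ, nsmul_eq_mul, mul_eq_zero,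
      Nat.cast_eq_zero, Fintype.card_ne_zero, false_or] at h2
    ext c
    rw [h1 c, h2]
    rfl

end Pool.Agent.MP_f0649b_al
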