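import Pool.Agent.MP_f0649b_al.Top

/-!
The Taketa inequality for finite groups whose second derived subgroup is nilpotent.
-/

namespace Pool.Agent.MP_f0649b_al.SecondDerivedNilpotent

theorem result (G : Type) [Group G] [Finite G] (h : Group.IsNilpotent (derivedSeries G 2)) :
    derivedSeries G
      {d : ℕ | ∃ V : FDRep ℂ G, CategoryTheory.Simple V ∧ Module.finrank ℂ V = d}.ncard = ⊥ := by
  rw [← Pool.Agent.MP_f0649b_al.cd_eq]
  exact Pool.Agent.MP_f0649b_al.main G h

end Pool.Agent.MP_f0649b_al.SecondDerivedNilpotent
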