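import Pool.Agent.MP_f0649b_al.PF
import Pool.Agent.MP_f0649b_al.IK
import Pool.Agent.MP_f0649b_al.Frat
import Pool.Agent.MP_f0649b_al.Bridge

/-! Groups whose second derived subgroup is nilpotent. -/

open Module

namespace Pool.Agent.MP_f0649b_al

variable {G : Type} [Group G]

theorem chain [Finite G] {p : ℕ} [Fact p.Prime] {s d : ℕ} (hs : IsPGroup p (derivedSeries G s))
    (hd : derivedSeries G d ≠ ⊥) :
    ∃ a : ℕ → ℕ, (∀ i ≤ d, Dg (derivedSeries G i) (a i) ∧
      ∀ c, Dg (derivedSeries G i) c → padicValNat p (a i) ≤ padicValNat p c) ∧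
      ∀ i j, s ≤ i → i < j → j ≤ d → padicValNat p (a i) < padicValNat p (a j) := by
  have h1 : ∀ i, ∃ c, i ≤ d → Dg (derivedSeries G i) c ∧
      ∀ c', Dg (derivedSeries G i) c' → padicValNat p c ≤ padicValNat p c' := by
    intro i
    by_cases hi : i ≤ d
    · obtain ⟨c0, hc0⟩ := exists_dg (derivedSeries G i)
        (fun e => hd (le_bot_iff.1 (e ▸ derivedSeries_antitone G hi)))
      obtain ⟨c, hc, hm⟩ := (measure (padicValNat p)).wf.has_min
        {c | Dg (derivedSeries G i) c} ⟨c0, hc0⟩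
      exact ⟨c, fun _ => ⟨hc, fun c' hc' => not_lt.1 (hm c' hc')⟩⟩
    · exact ⟨0, fun h => absurd h hi⟩
  choose a ha using h1
  refine ⟨a, ha, fun i j hi hij hj => ?_⟩
  have h2 : Dg ⁅derivedSeries G i, derivedSeries G i⁆ (a j) :=
    (ha j hj).1.mono (derivedSeries_antitone G (show i + 1 ≤ j from hij))
  obtain ⟨c, hc, hlt⟩ := ik (derivedSeries G i) (hs.to_le (derivedSeries_antitone G hi)) h2
  exact ((ha i (by omega)).2 c hc).trans_lt hlt

theorem count [Finite G] {s d : ℕ} (hs : 1 ≤ s) (a : ℕ → ℕ)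
    (h1 : ∀ i ≤ d, Dg (derivedSeries G i) (a i))
    (h2 : ∀ i j, s ≤ i → i < j → j ≤ d → a i ≠ a j) :
    d + 1 - s + 1 ≤ (cd G).ncard ∧ (d + 1 - s + 1 = (cd G).ncard →
      ∀ c ∈ cd G, c ≠ 1 → ∃ i, s ≤ i ∧ i ≤ d ∧ c = a i) := by
  classical
  let T : Finset ℕ := insert 1 ((Finset.Icc s d).image a)
  have hT : (T : Set ℕ) ⊆ cd G := by
    intro c hc
    simp only [T, Finset.coe_insert, Finset.coe_image, Set.mem_insert_iff, Set.mem_image,
      Finset.mem_coe, Finset.mem_Icc] at hc
    rcases hc with rfl | ⟨i, hi, rfl⟩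
    · exact one_mem_cd G
    · exact (h1 i hi.2).mem_cd
  have hc : T.card = d + 1 - s + 1 := by
    rw [Finset.card_insert_of_notMem, Finset.card_image_of_injOn, Nat.card_Icc]
    · intro i hi j hj e
      simp only [Finset.coe_Icc, Set.mem_Icc] at hi hj
      rcases lt_trichotomy i j with h | h | h
      · exact absurd e (h2 i j hi.1 h hj.2)
      · exact h
      · exact absurd e.symm (h2 j i hj.1 h hi.2)
    · intro h
      obtain ⟨i, hi, e⟩ := Finset.mem_image.1 h
      rw [Finset.mem_Icc] at hi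
      have := ((h1 i hi.2).mono (derivedSeries_antitone G (hs.trans hi.1))).two_le
      omega
  refine ⟨?_, fun e c hc' h1 => ?_⟩
  · rw [← hc, ← Set.ncard_coe_finset]
    exact Set.ncard_le_ncard hT (cd_finite G)
  · have := Set.eq_of_subset_of_ncard_le hT (by rw [Set.ncard_coe_finset, hc, e]) (cd_finite G)
    rw [← this] at hc'
    simp only [T, Finset.coe_insert, Finset.coe_image, Set.mem_insert_iff, Set.mem_image,
      Finset.mem_coe, Finset.mem_Icc] at hc'
    rcases hc' with rfl | ⟨i, hi, rfl⟩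
    · exact absurd rfl h1
    · exact ⟨i, hi.1, hi.2, rfl⟩

theorem mem_comm_sub {H A : Subgroup G} (hA : A ≤ H) {y : H} (hy : (y : G) ∈ ⁅A, A⁆) :
    y ∈ ⁅A.subgroupOf H, A.subgroupOf H⁆ := by
  have h : (⁅A.subgroupOf H, A.subgroupOf H⁆).map H.subtype = ⁅A, A⁆ := by
    rw [Subgroup.map_commutator, Subgroup.subgroupOf_map_subtype, inf_eq_left.2 hA]
  rw [← h] at hy
  obtain ⟨z, hz, e⟩ := hy
  exact (Subtype.ext e : z = y) ▸ hz

theorem comm_sub_le {H A : Subgroup G} (hA : A ≤ H) :
    (⁅A, A⁆).subgroupOf H ≤ ⁅A.subgroupOf H, A.subgroupOf H⁆ := fun _ hy => mem_comm_sub hA hy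

theorem lvl4 [Finite G] (hN : Group.IsNilpotent (derivedSeries G 2)) {f c : ℕ} (hf : MinDeg G f)
    (hc : Dg (derivedSeries G 4) c) : 2 * f < c := by
  by_contra hlt
  obtain ⟨V, _, _, _, ρ, hρ, rfl, x, hx, hx1⟩ := hc
  obtain ⟨H, W, _, _, _, σ, hσ, hq, hd, hk⟩ := prim hρ
  have hpos := dim_pos hσ
  have h12 : derivedSeries G 2 ≤ commutator G := derivedSeries_antitone G (show 1 ≤ 2 by omega)
  have h23 : derivedSeries G 3 ≤ derivedSeries G 2 := derivedSeries_antitone G (by omega)
  have h34 : derivedSeries G 4 ≤ derivedSeries G 3 := derivedSeries_antitone G (by omega)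
  by_cases he : finrank ℂ W = 1
  · have h3 : ¬ derivedSeries G 3 ≤ H := by
      intro h3
      refine hx1 (hk _ inferInstance (h34.trans h3) (fun y hy => ?_) x hx)
      exact triv_of_dim_one σ he y (Subgroup.commutator_mono le_top le_top (mem_comm_sub h3 hy))
    refine h3 (h23.trans (le_of_sup_comm _ H hN (h12.trans (lin1 hf _ ?_))))
    have h4 := Subgroup.relIndex_mul_index
      (le_sup_left : H ≤ H ⊔ ⁅derivedSeries G 2, derivedSeries G 2⁆)
    have h5 : H.relIndex (H ⊔ ⁅derivedSeries G 2, derivedSeries G 2⁆) ≠ 1 := fun e =>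
      h3 (le_sup_right.trans (Subgroup.relIndex_eq_one.1 e))
    have h6 : H.relIndex (H ⊔ ⁅derivedSeries G 2, derivedSeries G 2⁆) ≠ 0 :=
      Subgroup.index_ne_zero_of_finite
    have h7 : 2 ≤ H.relIndex (H ⊔ ⁅derivedSeries G 2, derivedSeries G 2⁆) := by omega
    rw [he, mul_one] at hd
    nlinarith
  · have h2 : derivedSeries G 2 ≤ H := h12.trans (lin1 hf H (by
      have : 2 ≤ finrank ℂ W := by omega
      nlinarith))
    refine hx1 (hk _ inferInstance ((h34.trans h23).trans h2) (fun y hy => ?_) x hx)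
    have hn : Group.IsNilpotent ((derivedSeries G 2).subgroupOf H) :=
      Group.nilpotent_of_mulEquiv (Subgroup.subgroupOfEquivOfLe h2).symm
    refine np_rep hq _ hn y ?_
    exact Subgroup.commutator_mono (comm_sub_le h2) (comm_sub_le h2)
      (mem_comm_sub (h23.trans h2) hy)

theorem step [Finite G] {p : ℕ} [Fact p.Prime] (hN : IsPGroup p (derivedSeries G 2)) {f : ℕ}
    (hf : MinDeg G f) {j : ℕ} (hj : 2 ≤ j) (hc : Dg (derivedSeries G j) f) :
    p ∣ f ∧ (3 ≤ j → ∃ M : Subgroup G, M.Normal ∧ p = 2 ∧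
      ((f = M.index * 2 ∧ 3 ∈ cd M ∧ 4 ∈ cd M) ∨ (f = M.index * 4 ∧ ∃ c ∈ cd M, c % 4 = 2))) := by
  obtain ⟨V, _, _, _, ρ, hρ, rfl, x, hx, hx1⟩ := hc
  obtain ⟨H, W, _, _, _, σ, hσ, hq, hd, hk⟩ := prim hρ
  have hpos := dim_pos hσ
  have hH0 : H.index ≠ 0 := Subgroup.index_ne_zero_of_finite
  have hD : commutator G ≤ H := lin1 hf H (by nlinarith)
  have hx2 : x ∈ derivedSeries G 2 := derivedSeries_antitone G hj hx
  have he : finrank ℂ W ≠ 1 := by
    intro he
    refine hx1 (hk _ inferInstance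
      ((derivedSeries_antitone G (show 1 ≤ 2 by omega)).trans hD) (fun y hy => ?_) x hx2)
    exact triv_of_dim_one σ he y (Subgroup.commutator_mono le_top le_top (mem_comm_sub hD hy))
  have hD' : commutator G ≤ ⁅H, H⁆ := lin2 hf H (by
    have : 2 ≤ finrank ℂ W := by omega
    have : 0 < H.index := Nat.pos_of_ne_zero hH0
    nlinarith)
  have hl : ∀ i, x ∈ derivedSeries G (i + 1) → ∃ y ∈ derivedSeries H (i + 1), σ y ≠ 1 := by
    intro i hi
    by_contra hcon
    push Not at hcon
    refine hx1 (hk _ inferInstance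
      ((derivedSeries_antitone G (show 1 ≤ i + 1 by omega)).trans hD) (fun y hy => ?_) x hi)
    rw [← derived_sub H hD' i] at hy
    obtain ⟨z, hz, e⟩ := hy
    exact hcon y ((Subtype.ext e : z = y) ▸ hz)
  have hNH : IsPGroup p (derivedSeries H 2) := by
    have := hN.comap_of_injective H.subtype H.subtype_injective
    refine this.to_le ?_
    rw [← derived_sub H hD' 1]
    exact Subgroup.le_comap_map _ _
  refine ⟨hd ▸ (p_dvd hσ hq hNH (hl 1 hx2)).mul_left _, fun h3 => ?_⟩
  have hm : MinDeg H (finrank ℂ W) := mindeg_sub (hd ▸ hf) H rfl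
  obtain ⟨h2, h⟩ := pm hσ hq hNH (hl 2 (derivedSeries_antitone G h3 hx)) hm
  refine ⟨H, Subgroup.Normal.of_commutator_le G hD, h2, ?_⟩
  rcases h with ⟨e, h⟩ | ⟨e, h⟩
  · exact Or.inl ⟨by rw [← hd, e], h⟩
  · exact Or.inr ⟨by rw [← hd, e], h⟩

theorem core [Finite G] {p : ℕ} [hp : Fact p.Prime] (hN : IsPGroup p (derivedSeries G 2))
    (hF : derivedSeries G 2 ≠ ⊥ → ¬ IsPGroup p (commutator G) →
      ∃ H : Subgroup G, H ≠ ⊤ ∧ derivedSeries G 2 ⊔ H = ⊤) :
    derivedSeries G (cd G).ncard = ⊥ := by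
  by_contra hd
  set d := (cd G).ncard with hdd
  obtain ⟨a, ha, hlt⟩ := chain hN hd
  have hd2 : 2 ≤ d := by
    have h1 := (count (G := G) (s := 1) (d := 0) le_rfl a (fun i hi => (ha i (by omega)).1)
      (fun i j _ _ _ => by omega)).1
    have h2 := (count (G := G) (s := 1) (d := 1) le_rfl a (fun i hi => (ha i (by omega)).1)
      (fun i j _ _ _ => by omega)).1
    omega
  have hD : ¬ IsPGroup p (commutator G) := by
    intro hD
    obtain ⟨b, hb, hlt'⟩ := chain (s := 1) hD hd
    have := (count (G := G) (s := 1) le_rfl b (fun i hi => (hb i hi).1)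
      (fun i j h1 h2 h3 e => (hlt' i j h1 h2 h3).ne (by rw [e]))).1
    omega
  obtain ⟨H, hH, hNH⟩ := hF (fun e => hd (le_bot_iff.1 (e ▸ derivedSeries_antitone G hd2))) hD
  obtain ⟨c0, hc0, hc0'⟩ := mu0 _ H hN hH hNH
  have hv2 : padicValNat p (a 2) = 0 := by
    have := (ha 2 hd2).2 c0 hc0
    rw [padicValNat.eq_zero_of_not_dvd hc0'] at this
    omega
  have hcov := (count (G := G) (s := 2) (by omega) a (fun i hi => (ha i hi).1)
      (fun i j h1 h2 h3 e => (hlt i j h1 h2 h3).ne (by rw [e]))).2 (by omega)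
  have h12 : derivedSeries G 2 ≤ commutator G := derivedSeries_antitone G (show 1 ≤ 2 by omega)
  obtain ⟨f, hf1, hf⟩ := wellFounded_lt.has_min {c | Dg (commutator G) c} ⟨c0, hc0.mono h12⟩
  replace hf : MinDeg G f := fun c hc => not_lt.1 (hf c hc)
  have hf2 : 2 ≤ f := Dg.two_le hf1
  have hnil : Group.IsNilpotent (derivedSeries G 2) := hN.isNilpotent
  have h4 : ∀ i, 4 ≤ i → i ≤ d → 2 * f < a i := fun i hi hi' =>
    lvl4 hnil hf ((ha i hi').1.mono (derivedSeries_antitone G hi))
  obtain ⟨j, hj, hjd, hfj⟩ := hcov f (Dg.mem_cd hf1) (by omega)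
  obtain ⟨hpf, hst⟩ := step hN hf hj (hfj ▸ (ha j hjd).1)
  have hj3 : j = 3 := by
    have e2 : j ≠ 2 := by
      rintro rfl
      rw [← hfj, padicValNat.eq_zero_iff] at hv2
      have := hp.out.one_lt
      rcases hv2 with h | h | h
      · omega
      · omega
      · exact h hpf
    by_contra e3
    have := h4 j (by omega) hjd
    omega
  subst hj3
  obtain ⟨M, hM, rfl, hcase⟩ := hst le_rfl
  have tri : ∀ c ∈ cd G, c ≠ 1 → ¬ 2 ∣ c ∨ c = f ∨
      (2 * f < c ∧ padicValNat 2 f < padicValNat 2 c) := by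
    intro c hc hc1
    obtain ⟨i, hi, hid, rfl⟩ := hcov c hc hc1
    rcases Nat.lt_or_ge i 4 with h | h
    · rcases (by omega : i = 2 ∨ i = 3) with rfl | rfl
      · left
        have := Dg.two_le ((ha 2 hd2).1.mono h12)
        rw [padicValNat.eq_zero_iff] at hv2
        omega
      · exact Or.inr (Or.inl hfj.symm)
    · exact Or.inr (Or.inr ⟨h4 i h hid, hfj ▸ hlt 3 i (by omega) (by omega) hid⟩)
  set n := M.index with hn
  rcases hcase with ⟨e, h3, h4'⟩ | ⟨e, c, hc, hc4⟩
  · have g3 := ind_normal M h3 (by omega) (fun x => x = 0 ∨ (f ≤ x ∧ x ∈ cd G) ∨ 2 * f ≤ x)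
      (Or.inl rfl) (by
        rintro x y (rfl | hx | hx) (rfl | hy | hy) <;> simp_all <;> omega)
      (fun x hx _ => Or.inr (Or.inl ⟨hf x hx, hx.mem_cd⟩))
    have g3' : n * 3 ∈ cd G := by
      rcases g3 with h | h | h
      · omega
      · exact h.2
      · omega
    have hodd : ¬ 2 ∣ n := by
      rcases tri _ g3' (by omega) with h | h | h <;> omega
    have g4 := ind_normal M h4' (by omega) (fun x => x = 0 ∨ (f < x ∧ x ∈ cd G) ∨ 2 * f < x)
      (Or.inl rfl) (by
        rintro x y (rfl | hx | hx) (rfl | hy | hy) <;> simp_all <;> omega)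
      (fun x hx h => Or.inr (Or.inl ⟨by have := hf x hx; omega, hx.mem_cd⟩))
    have g4' : n * 4 ∈ cd G := by
      rcases g4 with h | h | h
      · omega
      · exact h.2
      · omega
    rcases tri _ g4' (by omega) with h | h | h <;> omega
  · have g := ind_normal M hc (by omega) (fun x => 2 ^ padicValNat 2 f ∣ x) (dvd_zero _)
      (fun x y => dvd_add) (fun x hx h => by
        have hx2 := hx.two_le
        have h2 : 2 ∣ x := (by omega : 2 ∣ c).trans h
        rcases tri x hx.mem_cd (by omega) with h' | h' | h'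
        · exact absurd h2 h'
        · rw [h']; exact pow_padicValNat_dvd
        · exact (pow_dvd_pow 2 h'.2.le).trans pow_padicValNat_dvd)
    have hn0 : n ≠ 0 := by omega
    have hc0 : c ≠ 0 := by omega
    rw [padicValNat_dvd_iff_le (mul_ne_zero hn0 hc0), e, padicValNat.mul hn0 hc0,
      padicValNat.mul hn0 (by omega), add_le_add_iff_left,
      ← padicValNat_dvd_iff_le hc0] at g
    have : padicValNat 2 4 = 2 := by simpa using padicValNat.prime_pow (p := 2) 2
    rw [this] at g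
    omega

theorem main (G : Type) [Group G] [Finite G] (hN : Group.IsNilpotent (derivedSeries G 2)) :
    derivedSeries G (cd G).ncard = ⊥ := by
  induction h : Nat.card G using Nat.strong_induction_on generalizing G with
  | _ m ih =>
  by_cases hM : Mono G
  · obtain ⟨p, hp, hP⟩ := mono_p hM _ hN
    have : Fact p.Prime := ⟨hp⟩
    exact core hP (frat hM hP)
  · have key : ∀ K : Subgroup G, K.Normal → K ≠ ⊥ → derivedSeries G (cd G).ncard ≤ K := by
      intro K hK hK0
      have hs := QuotientGroup.mk'_surjective K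
      have h1 : Nat.card (G ⧸ K) < m := by
        rw [← h, Subgroup.card_eq_card_quotient_mul_card_subgroup K]
        have := (Subgroup.one_lt_card_iff_ne_bot K).2 hK0
        have : 0 < Nat.card (G ⧸ K) := Nat.card_pos
        nlinarith
      have h2 : Group.IsNilpotent (derivedSeries (G ⧸ K) 2) := by
        rw [← map_derivedSeries_eq hs]
        exact Group.nilpotent_of_surjective _ (MonoidHom.subgroupMap_surjective _ _)
      have h3 := ih _ h1 (G ⧸ K) h2 rfl
      rw [← map_derivedSeries_eq hs, Subgroup.map_eq_bot_iff, QuotientGroup.ker_mk'] at h3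
      exact (derivedSeries_antitone G (Set.ncard_le_ncard (cd_of_surj _ hs) (cd_finite G))).trans h3
    unfold Mono at hM
    push Not at hM
    obtain ⟨K, L, hK, hL, hKL, hK0, hL0⟩ := hM
    exact le_bot_iff.1 (hKL ▸ le_inf (key K hK hK0) (key L hL hL0))

end Pool.Agent.MP_f0649b_al
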